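import Mathlib

/-!
# Words of two letters and the subword ordering: combinatorics

The letter `a` is `true`, the letter `b` is `false`.
-/

set_option autoImplicit false

namespace Pool.Agent.J4.H57.RP

/-- `a ^ n` -/
abbrev A (n : ℕ) : List Bool := List.replicate n true

/-- `b ^ n` -/
abbrev B (n : ℕ) : List Bool := List.replicate n false

/-- number of letters `a` -/
abbrev cA (u : List Bool) : ℕ := u.count true

/-- number of letters `b` -/
abbrev cB (u : List Bool) : ℕ := u.count false

theorem cA_A (n : ℕ) : cA (A n) = n := by simp [cA, A]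
theorem cB_A (n : ℕ) : cB (A n) = 0 := by simp [cB, A, List.count_replicate]
theorem cA_B (n : ℕ) : cA (B n) = 0 := by simp [cA, B, List.count_replicate]
theorem cB_B (n : ℕ) : cB (B n) = n := by simp [cB, B]

theorem len_eq (u : List Bool) : u.length = cA u + cB u := by
  induction u with
  | nil => rfl
  | cons c u ih =>
    simp only [cA, cB] at ih ⊢
    cases c
    · rw [List.length_cons, List.count_cons_self, List.count_cons_of_ne (by simp), ih]
      omega
    · rw [List.length_cons, List.count_cons_self, List.count_cons_of_ne (by simp), ih]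
      omega

theorem isA_iff (u : List Bool) : ¬ [false].Sublist u ↔ u = A (cA u) := by
  rw [List.singleton_sublist]
  constructor
  · intro h
    apply List.eq_replicate_iff.2
    refine ⟨?_, ?_⟩
    · rw [len_eq, show cB u = 0 from List.count_eq_zero.2 h, add_zero]
    · intro b hb
      cases b
      · exact absurd hb h
      · rfl
  · intro h
    rw [h]
    simp

theorem isB_iff (u : List Bool) : ¬ [true].Sublist u ↔ u = B (cB u) := by
  rw [List.singleton_sublist]
  constructor
  · intro h
    apply List.eq_replicate_iff.2
    refine ⟨?_, ?_⟩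
    · rw [len_eq, show cA u = 0 from List.count_eq_zero.2 h, zero_add]
    · intro b hb
      cases b
      · rfl
      · exact absurd hb h
  · intro h
    rw [h]
    simp

theorem A_sub (n : ℕ) (u : List Bool) : (A n).Sublist u ↔ n ≤ cA u :=
  List.replicate_sublist_iff

theorem B_sub (n : ℕ) (u : List Bool) : (B n).Sublist u ↔ n ≤ cB u :=
  List.replicate_sublist_iff

/-- `y = a ^ |u|_a` -/
theorem cntA_iff (u y : List Bool) :
    y = A (cA u) ↔ ¬ [false].Sublist y ∧ y.Sublist u ∧ ¬ (true :: y).Sublist u := by
  constructor
  · rintro rfl
    refine ⟨?_, (A_sub _ _).2 le_rfl, ?_⟩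
    · rw [isA_iff, cA_A]
    · rw [show true :: A (cA u) = A (cA u + 1) from rfl, A_sub]
      omega
  · rintro ⟨h1, h2, h3⟩
    rw [isA_iff] at h1
    rw [h1] at h2 h3 ⊢
    rw [show true :: A (cA y) = A (cA y + 1) from rfl, A_sub] at h3
    rw [A_sub] at h2
    congr 1
    omega

theorem cntB_iff (u y : List Bool) :
    y = B (cB u) ↔ ¬ [true].Sublist y ∧ y.Sublist u ∧ ¬ (false :: y).Sublist u := by
  constructor
  · rintro rfl
    refine ⟨?_, (B_sub _ _).2 le_rfl, ?_⟩
    · rw [isB_iff, cB_B]
    · rw [show false :: B (cB u) = B (cB u + 1) from rfl, B_sub]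
      omega
  · rintro ⟨h1, h2, h3⟩
    rw [isB_iff] at h1
    rw [h1] at h2 h3 ⊢
    rw [show false :: B (cB y) = B (cB y + 1) from rfl, B_sub] at h3
    rw [B_sub] at h2
    congr 1
    omega

/-- a word without the subword `d c` -/
theorem sorted_iff (c d : Bool) (hcd : c ≠ d) (z : List Bool) : ¬ [d, c].Sublist z ↔
    z = List.replicate (z.count c) c ++ List.replicate (z.count d) d := by
  constructor
  · intro h
    induction z with
    | nil => rfl
    | cons x z ih =>
      by_cases hx : x = c
      · subst hx
        have h1 : ¬ [d, x].Sublist z := fun h2 => h (h2.cons _)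
        have h2 := ih h1
        rw [List.count_cons_self, List.count_cons_of_ne hcd, List.replicate_succ, List.cons_append,
          ← h2]
      · have hxd : x = d := by
          cases x <;> cases c <;> cases d <;> simp_all
        subst hxd
        have h1 : c ∉ z := by
          intro h2
          exact h ((List.singleton_sublist.2 h2).cons_cons _)
        have h2 : z = List.replicate z.length x := by
          apply List.eq_replicate_iff.2
          refine ⟨rfl, fun b hb => ?_⟩
          by_contra hbx
          apply h1
          have : b = c := by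
            cases b <;> cases c <;> cases x <;> simp_all
          rw [← this]
          exact hb
        have h3 : (x :: z).count c = 0 := by
          rw [List.count_cons_of_ne hx]
          exact List.count_eq_zero.2 h1
        have h4 : (x :: z).count x = z.length + 1 := by
          rw [List.count_cons_self]
          congr 1
          conv_lhs => rw [h2]
          simp
        rw [h3, h4, List.replicate_zero, List.nil_append, List.replicate_succ, ← h2]
  · intro h h1
    rw [h] at h1
    clear h
    generalize z.count c = n at h1
    generalize z.count d = m at h1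
    induction n with
    | zero =>
      rw [List.replicate_zero, List.nil_append] at h1
      have h2 : c ∈ List.replicate m d := h1.subset (by simp)
      exact hcd (List.eq_of_mem_replicate h2)
    | succ n ih =>
      rw [List.replicate_succ, List.cons_append] at h1
      cases h1 with
      | cons _ h1 => exact ih h1
      | cons_cons _ h1 => exact hcd rfl

/-- `z = a ^ n b ^ m` -/
theorem sAB_iff (x y z : List Bool) :
    (x = A (cA z) ∧ y = B (cB z) ∧ ¬ [false, true].Sublist z) ↔
      ∃ n m, x = A n ∧ y = B m ∧ z = A n ++ B m := by
  rw [sorted_iff true false (by simp)]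
  constructor
  · rintro ⟨h1, h2, h3⟩
    exact ⟨_, _, h1, h2, h3⟩
  · rintro ⟨n, m, rfl, rfl, rfl⟩
    simp [cA, cB, A, B, List.count_append, List.count_replicate]

theorem sBA_iff (x y z : List Bool) :
    (x = A (cA z) ∧ y = B (cB z) ∧ ¬ [true, false].Sublist z) ↔
      ∃ n m, x = A n ∧ y = B m ∧ z = B m ++ A n := by
  rw [sorted_iff false true (by simp)]
  constructor
  · rintro ⟨h1, h2, h3⟩
    exact ⟨_, _, h1, h2, h3⟩
  · rintro ⟨n, m, rfl, rfl, rfl⟩
    simp [cA, cB, A, B, List.count_append, List.count_replicate]

/-- subwords and the last letter -/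
theorem sub_append_ne {x y : Bool} (h : x ≠ y) {p q : List Bool} :
    (p ++ [x]).Sublist (q ++ [y]) ↔ (p ++ [x]).Sublist q := by
  constructor
  · intro h1
    have h2 := List.reverse_sublist.2 h1
    rw [List.reverse_append, List.reverse_append, List.reverse_singleton, List.reverse_singleton,
      List.singleton_append, List.singleton_append] at h2
    cases h2 with
    | cons _ h2 =>
      rw [← List.reverse_sublist]
      rw [List.reverse_append, List.reverse_singleton, List.singleton_append]
      exact h2
    | cons_cons _ h2 => exact absurd rfl h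
  · intro h1
    exact h1.trans (List.sublist_append_left _ _)

theorem sub_append_eq {x : Bool} {p q : List Bool} :
    (p ++ [x]).Sublist (q ++ [x]) ↔ p.Sublist q := List.append_sublist_append_right [x]

/-- the word ends with `c` -/
theorem ends_iff (c d : Bool) (hcd : c ≠ d) (u : List Bool) :
    ([c].Sublist u ∧ ¬ (List.replicate (u.count c) c ++ [d]).Sublist u) ↔ ∃ p, u = p ++ [c] := by
  constructor
  · rintro ⟨h1, h2⟩
    rcases List.eq_nil_or_concat u with rfl | ⟨p, x, hpx⟩
    · simp at h1
    · rw [List.concat_eq_append] at hpx
      subst hpx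
      by_cases hx : x = c
      · exact ⟨p, by rw [hx]⟩
      · exfalso
        have hxd : x = d := by
          cases x <;> cases c <;> cases d <;> simp_all
        subst hxd
        apply h2
        apply List.Sublist.append _ (List.Sublist.refl _)
        have h3 : (p ++ [x]).count c = p.count c := by
          rw [List.count_append, List.count_singleton]
          simp [hx]
        rw [h3]
        exact List.replicate_sublist_iff.2 le_rfl
  · rintro ⟨p, rfl⟩
    refine ⟨List.sublist_append_right _ _, ?_⟩
    rw [sub_append_ne (Ne.symm hcd)]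
    intro h
    have h1 := h.count_le c
    rw [List.count_append, List.count_append, List.count_replicate_self, List.count_singleton_self]
      at h1
    omega

/-! ### alternating words -/

theorem alt_key (n : ℕ) : ∀ p q : List Bool, p.length = n → q.length = n →
    p.Sublist (true :: q) → q.Sublist (false :: p) →
    (∀ p' q' : List Bool, ∀ x : Bool, p = p' ++ [x] → q = q' ++ [x] → False) →
    q = p.map (fun c => !c) := by
  induction n with
  | zero =>
    intro p q hp hq _ _ _
    rw [List.length_eq_zero_iff] at hp hq
    rw [hp, hq]
    rfl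
  | succ n ih =>
    intro p q hp hq h1 h2 h3
    have hne : p ≠ q := by
      rintro rfl
      rcases List.eq_nil_or_concat p with rfl | ⟨p', x, hpx⟩
      · simp at hp
      · rw [List.concat_eq_append] at hpx
        exact h3 p' p' x hpx hpx
    cases p with
    | nil => simp at hp
    | cons x p =>
    cases q with
    | nil => simp at hq
    | cons y q =>
      have hx : x = true := by
        cases h1 with
        | cons _ h1 => exact absurd (h1.eq_of_length (by rw [hp, hq])) hne
        | cons_cons _ h1 => rfl
      have hy : y = false := by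
        cases h2 with
        | cons _ h2 => exact absurd (h2.eq_of_length (by rw [hp, hq])).symm hne
        | cons_cons _ h2 => rfl
      subst hx hy
      rw [List.cons_sublist_cons] at h1 h2
      have hp' : p.length = n := by simpa using hp
      have hq' : q.length = n := by simpa using hq
      have h4 := ih q p hq' hp' h2 h1 (by
        intro p' q' x hp1 hq1
        apply h3 (true :: q') (false :: p') x
        · rw [hq1]; rfl
        · rw [hp1]; rfl)
      rw [List.map_cons, h4, List.map_map]
      simp [Function.comp_def]

/-- `(a b) ^ n` -/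
def alt : ℕ → List Bool
  | 0 => []
  | n + 1 => true :: false :: alt n

/-- `(b a) ^ n` -/
def alt' : ℕ → List Bool
  | 0 => []
  | n + 1 => false :: true :: alt' n

theorem alt_comm (n : ℕ) : alt n ++ [true] = true :: alt' n := by
  induction n with
  | zero => rfl
  | succ n ih =>
    show true :: false :: (alt n ++ [true]) = _
    rw [ih]
    rfl

theorem alt_comm' (n : ℕ) : alt' n ++ [false] = false :: alt n := by
  induction n with
  | zero => rfl
  | succ n ih =>
    show false :: true :: (alt' n ++ [false]) = _
    rw [ih]
    rfl

theorem alt_count (n : ℕ) : cA (alt n) = n ∧ cB (alt n) = n ∧ cA (alt' n) = n ∧ cB (alt' n) = n := by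
  induction n with
  | zero => exact ⟨rfl, rfl, rfl, rfl⟩
  | succ n ih =>
    simp only [alt, alt', cA, cB, List.count_cons] at ih ⊢
    simp
    omega

theorem alt_ends (n : ℕ) (hn : 0 < n) : (∃ p, alt n = p ++ [false]) ∧ ∃ p, alt' n = p ++ [true] := by
  induction n with
  | zero => exact absurd hn (lt_irrefl _)
  | succ n ih =>
    rcases Nat.eq_zero_or_pos n with rfl | h
    · exact ⟨⟨[true], rfl⟩, ⟨[false], rfl⟩⟩
    · obtain ⟨⟨p, hp⟩, ⟨q, hq⟩⟩ := ih h
      exact ⟨⟨true :: false :: p, by rw [alt, hp]; rfl⟩, ⟨false :: true :: q, by rw [alt', hq]; rfl⟩⟩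

/-- the pairs `(a ^ n, b ^ n)`, `n ≥ 1` -/
theorem e_iff (x y : List Bool) :
    (∃ u v, u.Sublist (true :: v) ∧ v.Sublist (false :: u) ∧ x = A (cA u) ∧ x = A (cA v) ∧
      y = B (cB u) ∧ y = B (cB v) ∧ (∃ p, u = p ++ [false]) ∧ ∃ p, v = p ++ [true]) ↔
    ∃ n, 0 < n ∧ x = A n ∧ y = B n := by
  constructor
  · rintro ⟨u, v, h1, h2, h3, h4, h5, h6, ⟨p, hp⟩, ⟨q, hq⟩⟩
    have hA : cA u = cA v := by
      have := congrArg cA (h3.symm.trans h4)
      rwa [cA_A, cA_A] at this
    have hB : cB u = cB v := by
      have := congrArg cB (h5.symm.trans h6)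
      rwa [cB_B, cB_B] at this
    have hlen : u.length = v.length := by rw [len_eq, len_eq, hA, hB]
    have hk := alt_key v.length u v hlen rfl h1 h2 (by
      intro p' q' c hp' hq'
      rw [hp] at hp'
      rw [hq] at hq'
      have e1 := List.append_inj_right' hp' rfl
      have e2 := List.append_inj_right' hq' rfl
      simp at e1 e2
      rw [e1] at e2
      exact absurd e2 (by simp))
    have hAB : cA v = cB u := by
      rw [hk]
      clear hk h1 h2 h3 h4 h5 h6 hp hA hB hlen hq
      induction u with
      | nil => rfl
      | cons c u ih =>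
        cases c <;> simp [cA, cB] at ih ⊢ <;> exact ih
    refine ⟨cA v, ?_, h4, ?_⟩
    · rw [hq]
      simp [cA]
    · rw [h5, hAB]
  · rintro ⟨n, hn, rfl, rfl⟩
    obtain ⟨c1, c2, c3, c4⟩ := alt_count n
    obtain ⟨e1, e2⟩ := alt_ends n hn
    refine ⟨alt n, alt' n, ?_, ?_, by rw [c1], by rw [c3], by rw [c2], by rw [c4], e1, e2⟩
    · rw [← alt_comm]
      exact List.sublist_append_left _ _
    · rw [← alt_comm']
      exact List.sublist_append_left _ _

/-! ### addition -/

theorem one_b {u : List Bool} (h : cB u = 1) : ∃ i j, u = A i ++ false :: A j := by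
  induction u with
  | nil => simp [cB] at h
  | cons c u ih =>
    cases c
    · have h1 : cB u = 0 := by simpa [cB] using h
      refine ⟨0, cA u, ?_⟩
      rw [← (isA_iff u).1 ?_]
      · rfl
      · rw [List.singleton_sublist]
        exact List.count_eq_zero.1 h1
    · have h1 : cB u = 1 := by simpa [cB] using h
      obtain ⟨i, j, hij⟩ := ih h1
      exact ⟨i + 1, j, by rw [hij]; rfl⟩

theorem a_b_sub (n i : ℕ) (q : List Bool) (hq : cB q = 0) :
    (A n ++ [false]).Sublist (A i ++ false :: q) ↔ n ≤ i := by
  induction i generalizing n with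
  | zero =>
    constructor
    · intro h
      cases n with
      | zero => exact le_rfl
      | succ n =>
        exfalso
        rw [show A (n + 1) ++ [false] = true :: (A n ++ [false]) from rfl] at h
        cases h with
        | cons _ h =>
          have := h.count_le false
          rw [show q.count false = 0 from hq] at this
          simp at this
    · intro h
      rw [Nat.le_zero.1 h]
      exact (List.nil_sublist _).cons_cons _
  | succ i ih =>
    cases n with
    | zero =>
      constructor
      · intro _
        exact Nat.zero_le _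
      · intro _
        exact List.singleton_sublist.2 (by simp)
    | succ n =>
      show (true :: (A n ++ [false])).Sublist (true :: (A i ++ false :: q)) ↔ _
      rw [List.cons_sublist_cons, ih]
      omega

theorem b_a_sub (m i j : ℕ) : (false :: A m).Sublist (A i ++ false :: A j) ↔ m ≤ j := by
  induction i with
  | zero =>
    show (false :: A m).Sublist (false :: A j) ↔ _
    rw [List.cons_sublist_cons, A_sub, cA_A]
  | succ i ih =>
    rw [← ih]
    constructor
    · intro h
      cases h with
      | cons _ h => exact h
    · intro h
      exact h.cons _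

/-- addition -/
theorem add_iff (x y z : List Bool) :
    (¬ [false].Sublist x ∧ ¬ [false].Sublist y ∧ ∃ u p, [false].Sublist u ∧ ¬ [false, false].Sublist u ∧
      (∃ n m, x = A n ∧ [false] = B m ∧ p = A n ++ B m) ∧ p.Sublist u ∧ ¬ (true :: p).Sublist u ∧
      (false :: y).Sublist u ∧ ¬ (false :: true :: y).Sublist u ∧ z = A (cA u)) ↔
    ∃ n m, x = A n ∧ y = A m ∧ z = A (n + m) := by
  constructor
  · rintro ⟨hx, hy, u, p, h1, h2, ⟨n, m', h3, h4, h5⟩, h6, h7, h8, h9, h10⟩
    rw [isA_iff] at hy
    have hm : m' = 1 := by
      have := congrArg List.length h4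
      simpa [B] using this.symm
    subst hm
    have hu : cB u = 1 := by
      have e1 : 1 ≤ cB u := (B_sub 1 u).1 h1
      have e2 : ¬ 2 ≤ cB u := fun h => h2 ((B_sub 2 u).2 h)
      omega
    obtain ⟨i, j, rfl⟩ := one_b hu
    subst h5
    rw [hy] at h8 h9
    rw [show (true :: (A n ++ B 1)) = A (n + 1) ++ [false] from rfl] at h7
    rw [show A n ++ B 1 = A n ++ [false] from rfl] at h6
    rw [a_b_sub _ _ _ (cB_A j)] at h6 h7
    rw [show false :: true :: A (cA y) = false :: A (cA y + 1) from rfl, b_a_sub] at h9
    rw [b_a_sub] at h8
    refine ⟨n, cA y, h3, hy, ?_⟩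
    rw [h10]
    congr 1
    simp [cA, A, List.count_append, List.count_cons]
    have : List.count true y = j := by simp only [cA] at h8 h9; omega
    rw [this]
    omega
  · rintro ⟨n, m, rfl, rfl, rfl⟩
    refine ⟨?_, ?_, A n ++ false :: A m, A n ++ [false], ?_, ?_, ⟨n, 1, rfl, rfl, rfl⟩, ?_, ?_, ?_, ?_, ?_⟩
    · rw [isA_iff, cA_A]
    · rw [isA_iff, cA_A]
    · exact List.singleton_sublist.2 (by simp)
    · rw [show [false, false] = B 2 from rfl, B_sub]
      simp [cB, A, List.count_append, List.count_cons, List.count_replicate]
    · rw [a_b_sub _ _ _ (cB_A m)]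
    · rw [show (true :: (A n ++ [false])) = A (n + 1) ++ [false] from rfl, a_b_sub _ _ _ (cB_A m)]
      omega
    · rw [b_a_sub]
    · rw [show false :: true :: A m = false :: A (m + 1) from rfl, b_a_sub]
      omega
    · congr 1
      simp [cA, A, List.count_append, List.count_cons]

end Pool.Agent.J4.H57.RP
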