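import Mathlib

/-!
# Recursive path orderings: definitions

Finite signatures with a precedence and a status function, ground terms, the recursive path ordering,
quantifier-free formulas and the truth and the decidability of existential sentences.
-/

set_option autoImplicit false

namespace Pool.Agent.J4.H57.RP

/-- A finite signature with a precedence (a strict partial order of the symbols) and a status function. -/
structure Sig where
  /-- The number of the symbols; the symbols are the elements of `Fin n`. -/
  n : ℕ
  /-- The arity of a symbol. -/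
  ar : Fin n → ℕ
  /-- There is a constant. -/
  const : ∃ c, ar c = 0
  /-- The precedence: `prec f g` is `f ≻ g`. -/
  prec : Fin n → Fin n → Prop
  irrefl : ∀ f, ¬ prec f f
  trans : ∀ f g h, prec f g → prec g h → prec f h
  /-- The symbols of status `mul`; the others have the status `lex`. -/
  mul : Fin n → Prop

/-- The precedence is total: two different symbols are comparable. -/
def Sig.Total (F : Sig) : Prop := ∀ f g : Fin F.n, f ≠ g → F.prec f g ∨ F.prec g f

/-- The ground terms, the set `T(F)`. -/
inductive Tree (F : Sig) : Type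
  | app (f : Fin F.n) (ts : Fin (F.ar f) → Tree F) : Tree F

/-- The congruence `≈` of `T(F)` which is generated by the permutations of the arguments of the symbols
of status `mul`. -/
inductive Eqv {F : Sig} : Tree F → Tree F → Prop
  | refl (s : Tree F) : Eqv s s
  | symm {s t : Tree F} : Eqv s t → Eqv t s
  | trans {s t u : Tree F} : Eqv s t → Eqv t u → Eqv s u
  | congr (f : Fin F.n) (ss ts : Fin (F.ar f) → Tree F) :
      (∀ i, Eqv (ss i) (ts i)) → Eqv (.app f ss) (.app f ts)
  | perm (f : Fin F.n) (ss : Fin (F.ar f) → Tree F) (σ : Equiv.Perm (Fin (F.ar f))) :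
      F.mul f → Eqv (.app f ss) (.app f (ss ∘ σ))

/-- The recursive path ordering with status: `Gt s t` is `s > t`.

For `s = f(s_1, …, s_m)`: `s > t` if `s_i > t` or `s_i ≈ t` for some `i`; or if `t = g(t_1, …, t_n)`, `f ≻ g` and
`s > t_j` for all `j`; or if `t = f(t_1, …, t_m)`, `s > t_j` for all `j`, and the tuple of the `s_i` is greater than the
tuple of the `t_i` in the lexicographic extension (status `lex`: there is `i` with `s_j ≈ t_j` for `j < i` and
`s_i > t_i`) or in the multiset extension modulo `≈` (status `mul`: there are a set `A` of indices, not all, and an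
injective map `σ` of `A` into the set of the indices, with `s_i ≈ t_σ(i)` for all `i` in `A`, such that
for every `j` which is not in `σ(A)` there is an index `i = w(j)` which is not in `A`, with `s_i > t_j`). -/
inductive Gt {F : Sig} : Tree F → Tree F → Prop
  | sub_gt (f : Fin F.n) (ss : Fin (F.ar f) → Tree F) (t : Tree F) (i : Fin (F.ar f)) :
      Gt (ss i) t → Gt (.app f ss) t
  | sub_eqv (f : Fin F.n) (ss : Fin (F.ar f) → Tree F) (t : Tree F) (i : Fin (F.ar f)) :
      Eqv (ss i) t → Gt (.app f ss) t
  | prec (f g : Fin F.n) (ss : Fin (F.ar f) → Tree F) (ts : Fin (F.ar g) → Tree F) :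
      F.prec f g → (∀ j, Gt (.app f ss) (ts j)) → Gt (.app f ss) (.app g ts)
  | lex (f : Fin F.n) (ss ts : Fin (F.ar f) → Tree F) (i : Fin (F.ar f)) :
      ¬ F.mul f → (∀ j, Gt (.app f ss) (ts j)) →
      (∀ j, j < i → Eqv (ss j) (ts j)) → Gt (ss i) (ts i) → Gt (.app f ss) (.app f ts)
  | mul (f : Fin F.n) (ss ts : Fin (F.ar f) → Tree F) (A : Set (Fin (F.ar f)))
      (σ w : Fin (F.ar f) → Fin (F.ar f)) :
      F.mul f → (∀ j, Gt (.app f ss) (ts j)) →
      (∃ i, i ∉ A) → Set.InjOn σ A → (∀ i ∈ A, Eqv (ss i) (ts (σ i))) →
      (∀ j, j ∉ σ '' A → w j ∉ A) → (∀ j, j ∉ σ '' A → Gt (ss (w j)) (ts j)) →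
      Gt (.app f ss) (.app f ts)

/-- Terms with variables from `V`. -/
inductive Tm (F : Sig) (V : Type) : Type
  | var (x : V) : Tm F V
  | app (f : Fin F.n) (ts : Fin (F.ar f) → Tm F V) : Tm F V

/-- The value of a term for the values `v` of the variables. -/
def Tm.val {F : Sig} {V : Type} (v : V → Tree F) : Tm F V → Tree F
  | .var x => v x
  | .app f ts => .app f fun i => (ts i).val v

/-- Quantifier-free formulas with variables from `V`: Boolean combinations of atoms `s = t`, `s > t`. -/
inductive Fml (F : Sig) (V : Type) : Type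
  | eq (s t : Tm F V) : Fml F V
  | gt (s t : Tm F V) : Fml F V
  | not (φ : Fml F V) : Fml F V
  | and (φ ψ : Fml F V) : Fml F V
  | or (φ ψ : Fml F V) : Fml F V

/-- The formula holds in `T(F)` for the values `v` of the variables. -/
def Fml.Holds {F : Sig} {V : Type} (v : V → Tree F) : Fml F V → Prop
  | .eq s t => s.val v = t.val v
  | .gt s t => Gt (s.val v) (t.val v)
  | .not φ => ¬ φ.Holds v
  | .and φ ψ => φ.Holds v ∧ ψ.Holds v
  | .or φ ψ => φ.Holds v ∨ ψ.Holds v

/-- The existential sentence `∃ x_0 ∃ x_1 … φ` is true in `T(F)`, where `φ` is quantifier-free. -/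
def Fml.IsTrue {F : Sig} (φ : Fml F ℕ) : Prop := ∃ v : ℕ → Tree F, φ.Holds v

/-- The code of a term, a finite list of natural numbers (prefix notation). -/
def Tm.code {F : Sig} : Tm F ℕ → List ℕ
  | .var x => [0, x]
  | .app f ts => ((f : ℕ) + 1) :: (List.ofFn fun i => (ts i).code).flatten

/-- The code of a formula, a finite list of natural numbers (prefix notation). -/
def Fml.code {F : Sig} : Fml F ℕ → List ℕ
  | .eq s t => 0 :: (s.code ++ t.code)
  | .gt s t => 1 :: (s.code ++ t.code)
  | .not φ => 2 :: φ.code
  | .and φ ψ => 3 :: (φ.code ++ ψ.code)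
  | .or φ ψ => 4 :: (φ.code ++ ψ.code)

/-- The existential fragment of the theory of `T(F)` with the recursive path ordering is decidable: there is
an algorithm which decides, given (the code of) the formula `φ`, whether the sentence `∃ x_0 ∃ x_1 … φ` is true. -/
def ExDecidable (F : Sig) : Prop :=
  ∃ d : List ℕ → Bool, Computable d ∧ ∀ φ : Fml F ℕ, d φ.code = true ↔ φ.IsTrue

end Pool.Agent.J4.H57.RP
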