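import Pool.Agent.J4.H57.RP.Comb

/-!
# Words of two letters and the subword ordering: multiplication
-/

set_option autoImplicit false

namespace Pool.Agent.J4.H57.RP

theorem cA_app (u v : List Bool) : cA (u ++ v) = cA u + cA v := List.count_append
theorem cB_app (u v : List Bool) : cB (u ++ v) = cB u + cB v := List.count_append
theorem cA_a (u : List Bool) : cA (true :: u) = cA u + 1 := List.count_cons_self
theorem cB_b (u : List Bool) : cB (false :: u) = cB u + 1 := List.count_cons_self
theorem cA_b (u : List Bool) : cA (false :: u) = cA u := List.count_cons_of_ne (by simp)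
theorem cB_a (u : List Bool) : cB (true :: u) = cB u := List.count_cons_of_ne (by simp)

theorem eq_of_sub {u v : List Bool} (h : u.Sublist v) (hA : cA v ≤ cA u) (hB : cB v ≤ cB u) : u = v := by
  apply h.eq_of_length_le
  rw [len_eq, len_eq]
  omega

/-- the first `b` -/
theorem first_b {u : List Bool} (h : 0 < cB u) : ∃ i p, u = A i ++ false :: p := by
  induction u with
  | nil => simp [cB] at h
  | cons c u ih =>
    cases c
    · exact ⟨0, u, rfl⟩
    · rw [cB_a] at h
      obtain ⟨i, p, hp⟩ := ih h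
      exact ⟨i + 1, p, by rw [hp]; rfl⟩

/-- when all letters `b` are used, the blocks are compared -/
theorem cancel (n : ℕ) : ∀ (i : ℕ) (p q : List Bool), (A i ++ false :: p).Sublist (A n ++ false :: q) →
    cB p = cB q → i ≤ n ∧ p.Sublist q := by
  induction n with
  | zero =>
    intro i p q h hc
    rw [show A 0 ++ false :: q = false :: q from rfl] at h
    cases i with
    | zero =>
      rw [show A 0 ++ false :: p = false :: p from rfl, List.cons_sublist_cons] at h
      exact ⟨le_rfl, h⟩
    | succ i =>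
      exfalso
      rw [show A (i + 1) ++ false :: p = true :: (A i ++ false :: p) from rfl] at h
      cases h with
      | cons _ h =>
        have h1 : cB (true :: (A i ++ false :: p)) ≤ cB q := h.count_le false
        rw [cB_a, cB_app, cB_b, cB_A] at h1
        omega
  | succ n ih =>
    intro i p q h hc
    rw [show A (n + 1) ++ false :: q = true :: (A n ++ false :: q) from rfl] at h
    cases i with
    | zero =>
      rw [show A 0 ++ false :: p = false :: p from rfl] at h
      cases h with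
      | cons _ h =>
        obtain ⟨_, h1⟩ := ih 0 p q h hc
        exact ⟨Nat.zero_le _, h1⟩
    | succ i =>
      rw [show A (i + 1) ++ false :: p = true :: (A i ++ false :: p) from rfl,
        List.cons_sublist_cons] at h
      obtain ⟨h1, h2⟩ := ih i p q h hc
      exact ⟨Nat.succ_le_succ h1, h2⟩

/-- `X = a ^ n w` -/
theorem shift {n : ℕ} {w' X : List Bool} (h1 : cB X = cB (false :: w'))
    (h2 : (false :: w').Sublist X) (h3 : cA X = n + cA (false :: w'))
    (h4 : (A n ++ B (cB X)).Sublist X) : X = A n ++ false :: w' := by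
  have h5 : 0 < cB X := by rw [h1, cB_b]; omega
  obtain ⟨i, X', rfl⟩ := first_b h5
  have h6 : cB (A i ++ false :: X') = cB X' + 1 := by rw [cB_app, cB_A, cB_b]; omega
  rw [h6] at h4 h1
  rw [show A n ++ B (cB X' + 1) = A n ++ false :: B (cB X') from rfl] at h4
  obtain ⟨h7, _⟩ := cancel i n _ _ h4 (cB_B _)
  rw [cB_b] at h1
  obtain ⟨_, h8⟩ := cancel i 0 w' X' h2 (by omega)
  rw [cA_app, cA_A, cA_b, cA_b] at h3
  have h9 : cA w' ≤ cA X' := h8.count_le true
  have h10 : i = n := by omega
  rw [h10, eq_of_sub h8 (by omega) (by omega)]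

/-- `Z = w' b` -/
theorem snoc {w' Z : List Bool} (h1 : w'.Sublist Z) (h2 : cA Z = cA w') (h3 : cB Z = cB w' + 1)
    (h4 : ∃ p, Z = p ++ [false]) (h5 : ∃ p, w' = p ++ [true]) : Z = w' ++ [false] := by
  obtain ⟨q, rfl⟩ := h4
  obtain ⟨p, rfl⟩ := h5
  rw [sub_append_ne (by simp)] at h1
  rw [eq_of_sub h1]
  · rw [← h2, cA_app]
    omega
  · rw [cB_app, cB_app] at h3
    rw [cB_app]
    have : cB [false] = 1 := rfl
    omega

theorem main_ind (n m : ℕ) : ∀ (w : List Bool) (i : ℕ), cB w = m →
    (w ++ [false]).Sublist (A i ++ false :: w) → (B (m + 1) ++ A n).Sublist (false :: w) → i ≤ n →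
    i = n ∧ cA w = n * (m + 1) := by
  induction m with
  | zero =>
    intro w i hw h1 h2 hi
    have h3 : w = A (cA w) := by
      rw [← isA_iff, List.singleton_sublist]
      exact List.count_eq_zero.1 hw
    rw [h3] at h1
    rw [a_b_sub _ _ _ (cB_A _)] at h1
    rw [show B (0 + 1) ++ A n = false :: A n from rfl, List.cons_sublist_cons, A_sub] at h2
    omega
  | succ m ih =>
    intro w i hw h1 h2 hi
    obtain ⟨j, w2, rfl⟩ := first_b (u := w) (by omega)
    rw [cB_app, cB_A, cB_b] at hw
    have hw2 : cB w2 = m := by omega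
    rw [show A j ++ false :: w2 ++ [false] = A j ++ false :: (w2 ++ [false]) by simp] at h1
    obtain ⟨h3, h4⟩ := cancel i j _ _ h1 (by
      simp only [cB_app, cB_A, cB_b]
      have : cB [] = 0 := rfl
      omega)
    rw [show B (m + 1 + 1) ++ A n = false :: (B (m + 1) ++ A n) from rfl,
      List.cons_sublist_cons] at h2
    obtain ⟨_, h5⟩ := cancel j 0 (B m ++ A n) w2 h2 (by rw [cB_app, cB_B, cB_A, hw2, add_zero])
    obtain ⟨h6, h7⟩ := ih w2 j hw2 h4 (h5.cons_cons _) (by omega)
    refine ⟨by omega, ?_⟩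
    rw [cA_app, cA_A, cA_b, h7, h6]
    ring

/-- `(b a ^ n) ^ k` -/
def pw (n : ℕ) : ℕ → List Bool
  | 0 => []
  | k + 1 => false :: (A n ++ pw n k)

theorem pw_succ (n k : ℕ) : pw n (k + 1) = pw n k ++ false :: A n := by
  induction k with
  | zero => simp [pw]
  | succ k ih =>
    rw [show pw n (k + 1 + 1) = false :: (A n ++ pw n (k + 1)) from rfl, ih]
    rw [show pw n k ++ false :: A n = pw n (k + 1) from ih.symm]
    conv_lhs => rw [ih]
    rw [show pw n (k + 1) = false :: (A n ++ pw n k) from rfl]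
    simp

theorem pw_count (n k : ℕ) : cA (pw n k) = n * k ∧ cB (pw n k) = k := by
  induction k with
  | zero => exact ⟨rfl, rfl⟩
  | succ k ih =>
    rw [pw, cA_b, cB_b, cA_app, cB_app, cA_A, cB_A, ih.1, ih.2]
    constructor
    · ring
    · omega

theorem pw_ends (n k : ℕ) (hn : 0 < n) : ∃ p, A n ++ pw n k = p ++ [true] := by
  obtain ⟨n', rfl⟩ : ∃ n', n = n' + 1 := ⟨n - 1, by omega⟩
  have hA : A (n' + 1) = A n' ++ [true] := List.replicate_succ'
  cases k with
  | zero => exact ⟨A n', by rw [pw, List.append_nil, hA]⟩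
  | succ k =>
    rw [pw_succ]
    refine ⟨A (n' + 1) ++ (pw (n' + 1) k ++ false :: A n'), ?_⟩
    conv_lhs => rw [show false :: A (n' + 1) = (false :: A n') ++ [true] by rw [hA]; rfl]
    simp

/-- multiplication -/
theorem mul_iff (x y z : List Bool) :
    (∃ y' w' X Z P Q s t : List Bool,
      (∃ m, 0 < m ∧ y = A m ∧ y' = B m) ∧ [true].Sublist x ∧ ¬ [false].Sublist x ∧
      y' = B (cB (false :: w')) ∧ y' = B (cB X) ∧ (false :: w').Sublist X ∧
      s = A (cA (false :: w')) ∧ t = A (cA X) ∧ (∃ a b, x = A a ∧ s = A b ∧ t = A (a + b)) ∧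
      (∃ n m, x = A n ∧ y' = B m ∧ P = A n ++ B m) ∧ P.Sublist X ∧
      w'.Sublist Z ∧ s = A (cA Z) ∧ y' = B (cB Z) ∧ (∃ p, Z = p ++ [false]) ∧ (∃ p, w' = p ++ [true]) ∧
      Z.Sublist X ∧ (∃ n m, x = A n ∧ y' = B m ∧ Q = B m ++ A n) ∧ Q.Sublist (false :: w') ∧ z = s) ↔
    ∃ n m, 0 < n ∧ 0 < m ∧ x = A n ∧ y = A m ∧ z = A (n * m) := by
  have injA : ∀ {a b : ℕ}, A a = A b → a = b := fun {a b} h => by
    have := congrArg cA h
    rwa [cA_A, cA_A] at this
  have injB : ∀ {a b : ℕ}, B a = B b → a = b := fun {a b} h => by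
    have := congrArg cB h
    rwa [cB_B, cB_B] at this
  constructor
  · rintro ⟨y', w', X, Z, P, Q, s, t, ⟨m, hm, hy, hy'⟩, hx1, hx2, h1, h2, h3, h4, h5,
      ⟨a, b, h6, h7, h8⟩, ⟨n, m1, h9, h10, h11⟩, h12, h13, h14, h15, h16, h17, h18,
      ⟨n2, m2, h19, h20, h21⟩, h22, h23⟩
    have e1 := injA (h6.symm.trans h9)
    subst e1
    have e2 := injA (h6.symm.trans h19)
    subst e2
    have e3 := injB (hy'.symm.trans h10)
    subst e3
    have e4 := injB (hy'.symm.trans h20)
    subst e4
    have e5 := injB (hy'.symm.trans h1)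
    have e6 := injB (hy'.symm.trans h2)
    have e7 := injB (hy'.symm.trans h15)
    have e8 := injA (h7.symm.trans h4)
    have e9 := injA (h8.symm.trans h5)
    have e10 := injA (h7.symm.trans h14)
    have hn : 0 < a := by
      rw [h6] at hx1
      by_contra h0
      have : a = 0 := by omega
      subst this
      simp at hx1
    have hX : X = A a ++ false :: w' := shift (by omega) h3 (by omega) (by rw [← e6, ← h11]; exact h12)
    rw [cA_b] at e8
    rw [cB_b] at e5
    have hZ : Z = w' ++ [false] := snoc h13 (by omega) (by omega) h16 h17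
    have h24 := main_ind a (cB w') w' a rfl (by rw [← hZ, ← hX]; exact h18)
      (by rw [← e5, ← h21]; exact h22) le_rfl
    refine ⟨a, m, hn, hm, h6, hy, ?_⟩
    rw [h23, h7, e8, h24.2, ← e5]
  · rintro ⟨n, m, hn, hm, rfl, rfl, rfl⟩
    obtain ⟨k, rfl⟩ : ∃ k, m = k + 1 := ⟨m - 1, by omega⟩
    obtain ⟨c1, c2⟩ := pw_count n k
    refine ⟨B (k + 1), A n ++ pw n k, A n ++ false :: (A n ++ pw n k), A n ++ pw n k ++ [false],
      A n ++ B (k + 1), B (k + 1) ++ A n, A (n * (k + 1)), A (n + n * (k + 1)),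
      ⟨k + 1, Nat.succ_pos _, rfl, rfl⟩, ?_, ?_, ?_, ?_, List.sublist_append_right _ _, ?_, ?_,
      ⟨_, _, rfl, rfl, rfl⟩, ⟨_, _, rfl, rfl, rfl⟩, ?_, List.sublist_append_left _ _, ?_, ?_,
      ⟨_, rfl⟩, pw_ends n k hn, ?_, ⟨_, _, rfl, rfl, rfl⟩, ?_, rfl⟩
    · rw [show [true] = A 1 from rfl, A_sub, cA_A]
      exact hn
    · rw [isA_iff, cA_A]
    · rw [cB_b, cB_app, cB_A, c2, zero_add]
    · rw [cB_app, cB_b, cB_app, cB_A, c2, zero_add, zero_add]
    · rw [cA_b, cA_app, cA_A, c1]
      congr 1
      ring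
    · rw [cA_app, cA_b, cA_app, cA_A, c1]
      congr 1
      ring
    · apply List.Sublist.append (List.Sublist.refl _)
      rw [B_sub, cB_b, cB_app, cB_A, c2, zero_add]
    · rw [cA_app, cA_app, cA_A, c1]
      congr 1
      show _ = n + n * k + 0
      ring
    · rw [cB_app, cB_app, cB_A, c2]
      congr 1
      show _ = 0 + k + 1
      ring
    · rw [List.append_assoc]
      apply List.Sublist.append (List.Sublist.refl _)
      rw [show false :: (A n ++ pw n k) = pw n (k + 1) from rfl, pw_succ]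
      apply List.Sublist.append (List.Sublist.refl _)
      exact List.singleton_sublist.2 (by simp)
    · rw [show false :: (A n ++ pw n k) = pw n (k + 1) from rfl, pw_succ,
        show B (k + 1) = B k ++ [false] from List.replicate_succ', List.append_assoc]
      apply List.Sublist.append
      · rw [B_sub, c2]
      · exact List.Sublist.refl _

end Pool.Agent.J4.H57.RP
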