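import Pool.Agent.J4.H57.RP.IsW
import Pool.Agent.J4.H57.RP.Mul
import Pool.Agent.Helper844.DPRM

/-!
# Relations of words and of numbers which are existentially definable with the recursive path ordering
-/

set_option autoImplicit false

namespace Pool.Agent.J4.H57.RP

variable {F : Sig}

section ren

variable {V W : Type}

/-- renaming of the variables -/
def Tm.ren (f : V → W) : Tm F V → Tm F W
  | .var x => .var (f x)
  | .app g ts => .app g fun i => (ts i).ren f

/-- renaming of the variables -/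
def Fml.ren (f : V → W) : Fml F V → Fml F W
  | .eq s t => .eq (s.ren f) (t.ren f)
  | .gt s t => .gt (s.ren f) (t.ren f)
  | .not φ => .not (φ.ren f)
  | .and φ ψ => .and (φ.ren f) (ψ.ren f)
  | .or φ ψ => .or (φ.ren f) (ψ.ren f)

theorem Tm.ren_val (f : V → W) (v : W → Tree F) (t : Tm F V) : (t.ren f).val v = t.val (v ∘ f) := by
  induction t with
  | var x => rfl
  | app g ts ih =>
    simp only [Tm.ren, Tm.val, ih]

theorem Fml.ren_holds (f : V → W) (v : W → Tree F) (φ : Fml F V) :
    (φ.ren f).Holds v ↔ φ.Holds (v ∘ f) := by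
  induction φ with
  | eq s t => simp only [Fml.ren, Fml.Holds, Tm.ren_val]
  | gt s t => simp only [Fml.ren, Fml.Holds, Tm.ren_val]
  | not φ ih => simp only [Fml.ren, Fml.Holds, ih]
  | and φ ψ ih1 ih2 => simp only [Fml.ren, Fml.Holds, ih1, ih2]
  | or φ ψ ih1 ih2 => simp only [Fml.ren, Fml.Holds, ih1, ih2]

end ren

namespace Good

variable (G : Good F)

/-- The relation of words is existentially definable. -/
def WDef {α : Type} (R : (α → List Bool) → Prop) : Prop :=
  ∃ φ : Fml F (α ⊕ ℕ), ∀ v : α → List Bool,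
    R v ↔ ∃ w : ℕ → Tree F, φ.Holds (Sum.elim (fun i => G.wd (v i)) w)

/-- The function of words is the value of a term. -/
def IsT {α : Type} (f : (α → List Bool) → List Bool) : Prop :=
  ∃ t : Tm F α, ∀ v : α → List Bool, t.val (fun i => G.wd (v i)) = G.wd (f v)

variable {G}
variable {α : Type}

theorem WDef.congr {R R' : (α → List Bool) → Prop} (h : G.WDef R) (h' : ∀ v, R' v ↔ R v) :
    G.WDef R' := by
  obtain ⟨φ, hφ⟩ := h
  exact ⟨φ, fun v => (h' v).trans (hφ v)⟩

theorem WDef.and {R R' : (α → List Bool) → Prop} (h : G.WDef R) (h' : G.WDef R') :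
    G.WDef fun v => R v ∧ R' v := by
  obtain ⟨φ, hφ⟩ := h
  obtain ⟨ψ, hψ⟩ := h'
  refine ⟨.and (φ.ren (Sum.map id fun k => 2 * k)) (ψ.ren (Sum.map id fun k => 2 * k + 1)), ?_⟩
  intro v
  beta_reduce
  rw [hφ, hψ]
  simp only [Fml.Holds, Fml.ren_holds]
  constructor
  · rintro ⟨⟨w, hw⟩, ⟨w', hw'⟩⟩
    refine ⟨fun k => if k % 2 = 0 then w (k / 2) else w' (k / 2), ?_, ?_⟩
    · convert hw using 1
      funext i
      rcases i with i | k
      · rfl
      · show (if 2 * k % 2 = 0 then w (2 * k / 2) else w' (2 * k / 2)) = w k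
        rw [if_pos (by omega)]
        congr 1
        omega
    · convert hw' using 1
      funext i
      rcases i with i | k
      · rfl
      · show (if (2 * k + 1) % 2 = 0 then w ((2 * k + 1) / 2) else w' ((2 * k + 1) / 2)) = w' k
        rw [if_neg (by omega)]
        congr 1
        omega
  · rintro ⟨w, h1, h2⟩
    refine ⟨⟨fun k => w (2 * k), ?_⟩, ⟨fun k => w (2 * k + 1), ?_⟩⟩
    · convert h1 using 1
      funext i
      rcases i with i | k <;> rfl
    · convert h2 using 1
      funext i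
      rcases i with i | k <;> rfl

theorem WDef.or {R R' : (α → List Bool) → Prop} (h : G.WDef R) (h' : G.WDef R') :
    G.WDef fun v => R v ∨ R' v := by
  obtain ⟨φ, hφ⟩ := h
  obtain ⟨ψ, hψ⟩ := h'
  refine ⟨.or φ ψ, ?_⟩
  intro v
  beta_reduce
  rw [hφ, hψ]
  simp only [Fml.Holds]
  constructor
  · rintro (⟨w, hw⟩ | ⟨w, hw⟩)
    · exact ⟨w, Or.inl hw⟩
    · exact ⟨w, Or.inr hw⟩
  · rintro ⟨w, hw | hw⟩
    · exact Or.inl ⟨w, hw⟩
    · exact Or.inr ⟨w, hw⟩

theorem WDef.ex {R : List Bool → (α → List Bool) → Prop}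
    (h : G.WDef fun w : Option α → List Bool => R (w none) (fun i => w (some i))) :
    G.WDef fun v => ∃ y, R y v := by
  obtain ⟨φ, hφ⟩ := h
  obtain ⟨f, hf⟩ : ∃ f : Option α ⊕ ℕ → α ⊕ ℕ, f = fun x => match x with
    | Sum.inl none => Sum.inr 0
    | Sum.inl (some a) => Sum.inl a
    | Sum.inr k => Sum.inr (k + 1) := ⟨_, rfl⟩
  refine ⟨.and (G.isW (.var (.inr 0))) (φ.ren f), ?_⟩
  intro v
  simp only [Fml.Holds, Fml.ren_holds, isW_holds, Tm.val]
  constructor
  · rintro ⟨y, hy⟩
    have h1 := (hφ (fun o => match o with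
      | none => y
      | some a => v a)).1 hy
    obtain ⟨w, hw⟩ := h1
    refine ⟨fun k => match k with
      | 0 => G.wd y
      | k + 1 => w k, ⟨y, rfl⟩, ?_⟩
    convert hw using 1
    funext x
    rw [hf]
    rcases x with (_ | a) | k <;> rfl
  · rintro ⟨w, ⟨y, hy⟩, h1⟩
    refine ⟨y, ?_⟩
    refine (hφ (fun o => match o with
      | none => y
      | some a => v a)).2 ⟨fun k => w (k + 1), ?_⟩
    convert h1 using 1
    funext x
    rw [hf]
    rcases x with (_ | a) | k
    · exact hy.symm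
    · rfl
    · rfl

theorem WDef.reindex {β : Type} {R : (α → List Bool) → Prop} (h : G.WDef R) (ι : α → β) :
    G.WDef fun v : β → List Bool => R fun i => v (ι i) := by
  obtain ⟨φ, hφ⟩ := h
  refine ⟨φ.ren (Sum.map ι id), ?_⟩
  intro v
  beta_reduce
  rw [hφ]
  simp only [Fml.ren_holds]
  constructor
  · rintro ⟨w, hw⟩
    refine ⟨w, ?_⟩
    convert hw using 1
    funext x
    rcases x with a | k <;> rfl
  · rintro ⟨w, hw⟩
    refine ⟨w, ?_⟩
    convert hw using 1
    funext x
    rcases x with a | k <;> rfl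

variable {f g x y z : (α → List Bool) → List Bool}

theorem IsT.sub (hf : G.IsT f) (hg : G.IsT g) : G.WDef fun v => (f v).Sublist (g v) := by
  obtain ⟨s, hs⟩ := hf
  obtain ⟨t, ht⟩ := hg
  refine ⟨.or (.gt (t.ren .inl) (s.ren .inl)) (.eq (t.ren .inl) (s.ren .inl)), ?_⟩
  intro v
  simp only [Fml.Holds, Tm.ren_val]
  have h1 : ∀ w : ℕ → Tree F, (Sum.elim (fun i => G.wd (v i)) w) ∘ Sum.inl = fun i => G.wd (v i) := by
    intro w
    rfl
  simp only [h1, hs, ht, gt_wd]
  constructor
  · intro h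
    refine ⟨fun _ => G.E, ?_⟩
    by_cases h2 : f v = g v
    · right
      rw [h2]
    · exact Or.inl ⟨h, h2⟩
  · rintro ⟨_, h | h⟩
    · exact h.1
    · rw [G.wd_inj h]

theorem IsT.nsub (hf : G.IsT f) (hg : G.IsT g) : G.WDef fun v => ¬ (f v).Sublist (g v) := by
  obtain ⟨s, hs⟩ := hf
  obtain ⟨t, ht⟩ := hg
  refine ⟨.not (.or (.gt (t.ren .inl) (s.ren .inl)) (.eq (t.ren .inl) (s.ren .inl))), ?_⟩
  intro v
  simp only [Fml.Holds, Tm.ren_val]
  have h1 : ∀ w : ℕ → Tree F, (Sum.elim (fun i => G.wd (v i)) w) ∘ Sum.inl = fun i => G.wd (v i) := by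
    intro w
    rfl
  simp only [h1, hs, ht, gt_wd]
  constructor
  · intro h
    refine ⟨fun _ => G.E, ?_⟩
    rintro (h2 | h2)
    · exact h h2.1
    · apply h
      rw [G.wd_inj h2]
  · rintro ⟨_, h⟩ h2
    apply h
    by_cases h3 : f v = g v
    · right
      rw [h3]
    · exact Or.inl ⟨h2, h3⟩

theorem IsT.eq (hf : G.IsT f) (hg : G.IsT g) : G.WDef fun v => f v = g v := by
  obtain ⟨s, hs⟩ := hf
  obtain ⟨t, ht⟩ := hg
  refine ⟨.eq (s.ren .inl) (t.ren .inl), ?_⟩
  intro v
  simp only [Fml.Holds, Tm.ren_val]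
  have h1 : ∀ w : ℕ → Tree F, (Sum.elim (fun i => G.wd (v i)) w) ∘ Sum.inl = fun i => G.wd (v i) := by
    intro w
    rfl
  simp only [h1, hs, ht]
  constructor
  · intro h
    exact ⟨fun _ => G.E, by rw [h]⟩
  · rintro ⟨_, h⟩
    exact G.wd_inj h

theorem IsT.var (i : α) : G.IsT fun v => v i := ⟨.var i, fun _ => rfl⟩

theorem IsT.cons (c : Bool) (hf : G.IsT f) : G.IsT fun v => c :: f v := by
  obtain ⟨t, ht⟩ := hf
  exact ⟨G.consT c t, fun v => G.consT_val _ c t (ht v)⟩

theorem IsT.const (l : List Bool) : G.IsT fun _ : α → List Bool => l := by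
  induction l with
  | nil => exact ⟨G.ET, fun v => G.ET_val _⟩
  | cons c l ih => exact IsT.cons c ih

theorem IsT.lift (hf : G.IsT f) : G.IsT fun w : Option α → List Bool => f fun i => w (some i) := by
  obtain ⟨t, ht⟩ := hf
  refine ⟨t.ren some, fun v => ?_⟩
  rw [Tm.ren_val]
  exact ht fun i => v (some i)

theorem IsT.cntA (hf : G.IsT f) (hy : G.IsT y) : G.WDef fun v => y v = A (cA (f v)) :=
  ((IsT.nsub (IsT.const [false]) hy).and ((IsT.sub hy hf).and (IsT.nsub (IsT.cons true hy) hf))).congr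
    fun _ => cntA_iff _ _

theorem IsT.cntB (hf : G.IsT f) (hy : G.IsT y) : G.WDef fun v => y v = B (cB (f v)) :=
  ((IsT.nsub (IsT.const [true]) hy).and ((IsT.sub hy hf).and (IsT.nsub (IsT.cons false hy) hf))).congr
    fun _ => cntB_iff _ _

theorem IsT.sAB (hx : G.IsT x) (hy : G.IsT y) (hz : G.IsT z) :
    G.WDef fun v => ∃ n m, x v = A n ∧ y v = B m ∧ z v = A n ++ B m :=
  ((IsT.cntA hz hx).and ((IsT.cntB hz hy).and (IsT.nsub (IsT.const [false, true]) hz))).congr
    fun _ => (sAB_iff _ _ _).symm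

theorem IsT.sBA (hx : G.IsT x) (hy : G.IsT y) (hz : G.IsT z) :
    G.WDef fun v => ∃ n m, x v = A n ∧ y v = B m ∧ z v = B m ++ A n :=
  ((IsT.cntA hz hx).and ((IsT.cntB hz hy).and (IsT.nsub (IsT.const [true, false]) hz))).congr
    fun _ => (sBA_iff _ _ _).symm

theorem IsT.endsA (hf : G.IsT f) : G.WDef fun v => ∃ p, f v = p ++ [true] := by
  have h1 : G.WDef fun v : α → List Bool => [true].Sublist (f v) ∧ ∃ x z : List Bool,
      x = A (cA (f v)) ∧ (∃ n m, x = A n ∧ [false] = B m ∧ z = A n ++ B m) ∧ ¬ z.Sublist (f v) := by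
    refine (IsT.sub (IsT.const [true]) hf).and (WDef.ex (WDef.ex ?_))
    refine (IsT.cntA hf.lift.lift (IsT.var _)).and ((IsT.sAB (IsT.var _) (IsT.const _) (IsT.var _)).and
      (IsT.nsub (IsT.var _) hf.lift.lift))
  refine h1.congr fun v => ?_
  rw [← ends_iff true false (by simp)]
  apply and_congr_right
  intro _
  constructor
  · intro h
    exact ⟨_, _, rfl, ⟨_, 1, rfl, rfl, rfl⟩, h⟩
  · rintro ⟨x, z, rfl, ⟨n, m, h2, h3, rfl⟩, h4⟩
    have h5 : m = 1 := by
      have := congrArg List.length h3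
      simpa using this.symm
    rw [h5, ← h2] at h4
    exact h4

theorem IsT.endsB (hf : G.IsT f) : G.WDef fun v => ∃ p, f v = p ++ [false] := by
  have h1 : G.WDef fun v : α → List Bool => [false].Sublist (f v) ∧ ∃ x z : List Bool,
      x = B (cB (f v)) ∧ (∃ n m, [true] = A n ∧ x = B m ∧ z = B m ++ A n) ∧ ¬ z.Sublist (f v) := by
    refine (IsT.sub (IsT.const [false]) hf).and (WDef.ex (WDef.ex ?_))
    refine (IsT.cntB hf.lift.lift (IsT.var _)).and ((IsT.sBA (IsT.const _) (IsT.var _) (IsT.var _)).and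
      (IsT.nsub (IsT.var _) hf.lift.lift))
  refine h1.congr fun v => ?_
  rw [← ends_iff false true (by simp)]
  apply and_congr_right
  intro _
  constructor
  · intro h
    exact ⟨_, _, rfl, ⟨1, _, rfl, rfl, rfl⟩, h⟩
  · rintro ⟨x, z, rfl, ⟨n, m, h2, h3, rfl⟩, h4⟩
    have h5 : n = 1 := by
      have := congrArg List.length h2
      simpa using this.symm
    rw [h5, ← h3] at h4
    exact h4

/-- the pairs `(a ^ n, b ^ n)`, `n ≥ 1` -/
theorem IsT.ab (hx : G.IsT x) (hy : G.IsT y) : G.WDef fun v => ∃ n, 0 < n ∧ x v = A n ∧ y v = B n := by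
  have h1 : G.WDef fun v : α → List Bool => ∃ p q : List Bool, p.Sublist (true :: q) ∧
      q.Sublist (false :: p) ∧ x v = A (cA p) ∧ x v = A (cA q) ∧
      y v = B (cB p) ∧ y v = B (cB q) ∧ (∃ r, p = r ++ [false]) ∧ ∃ r, q = r ++ [true] := by
    refine WDef.ex (WDef.ex ?_)
    have hp : G.IsT fun w : Option (Option α) → List Bool => w (some none) := IsT.var _
    have hq : G.IsT fun w : Option (Option α) → List Bool => w none := IsT.var _
    exact (IsT.sub hp (IsT.cons _ hq)).and ((IsT.sub hq (IsT.cons _ hp)).and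
      ((IsT.cntA hp hx.lift.lift).and ((IsT.cntA hq hx.lift.lift).and
      ((IsT.cntB hp hy.lift.lift).and ((IsT.cntB hq hy.lift.lift).and
      ((IsT.endsB hp).and (IsT.endsA hq)))))))
  exact h1.congr fun v => (e_iff _ _).symm

/-- addition -/
theorem IsT.add (hx : G.IsT x) (hy : G.IsT y) (hz : G.IsT z) :
    G.WDef fun v => ∃ n m, x v = A n ∧ y v = A m ∧ z v = A (n + m) := by
  have h1 : G.WDef fun v : α → List Bool => ¬ [false].Sublist (x v) ∧ ¬ [false].Sublist (y v) ∧
      ∃ u p : List Bool, [false].Sublist u ∧ ¬ [false, false].Sublist u ∧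
      (∃ n m, x v = A n ∧ [false] = B m ∧ p = A n ++ B m) ∧ p.Sublist u ∧ ¬ (true :: p).Sublist u ∧
      (false :: y v).Sublist u ∧ ¬ (false :: true :: y v).Sublist u ∧ z v = A (cA u) := by
    refine (IsT.nsub (IsT.const _) hx).and ((IsT.nsub (IsT.const _) hy).and (WDef.ex (WDef.ex ?_)))
    have hu : G.IsT fun w : Option (Option α) → List Bool => w (some none) := IsT.var _
    have hp : G.IsT fun w : Option (Option α) → List Bool => w none := IsT.var _
    exact (IsT.sub (IsT.const _) hu).and ((IsT.nsub (IsT.const _) hu).and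
      ((IsT.sAB hx.lift.lift (IsT.const _) hp).and ((IsT.sub hp hu).and ((IsT.nsub (IsT.cons _ hp) hu).and
      ((IsT.sub (IsT.cons _ hy.lift.lift) hu).and ((IsT.nsub (IsT.cons _ (IsT.cons _ hy.lift.lift)) hu).and
      (IsT.cntA hu hz.lift.lift)))))))
  exact h1.congr fun v => (add_iff _ _ _).symm

/-- multiplication -/
theorem IsT.mul (hx : G.IsT x) (hy : G.IsT y) (hz : G.IsT z) :
    G.WDef fun v => ∃ n m, 0 < n ∧ 0 < m ∧ x v = A n ∧ y v = A m ∧ z v = A (n * m) := by
  refine WDef.congr ?_ fun v => (mul_iff _ _ _).symm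
  refine WDef.ex (WDef.ex (WDef.ex (WDef.ex (WDef.ex (WDef.ex (WDef.ex (WDef.ex ?_)))))))
  have hx' := hx.lift.lift.lift.lift.lift.lift.lift.lift
  have hy' := hy.lift.lift.lift.lift.lift.lift.lift.lift
  have hz' := hz.lift.lift.lift.lift.lift.lift.lift.lift
  -- the variables
  have e1 : ∀ i : Option (Option (Option (Option (Option (Option (Option (Option α))))))),
      G.IsT fun w : Option (Option (Option (Option (Option (Option (Option (Option α))))))) →
        List Bool => w i := fun i => IsT.var i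
  refine (IsT.ab hy' (e1 _)).and ((IsT.sub (IsT.const _) hx').and ((IsT.nsub (IsT.const _) hx').and
    ((IsT.cntB (IsT.cons _ (e1 _)) (e1 _)).and ((IsT.cntB (e1 _) (e1 _)).and
    ((IsT.sub (IsT.cons _ (e1 _)) (e1 _)).and ((IsT.cntA (IsT.cons _ (e1 _)) (e1 _)).and
    ((IsT.cntA (e1 _) (e1 _)).and ((IsT.add hx' (e1 _) (e1 _)).and
    ((IsT.sAB hx' (e1 _) (e1 _)).and ((IsT.sub (e1 _) (e1 _)).and ((IsT.sub (e1 _) (e1 _)).and
    ((IsT.cntA (e1 _) (e1 _)).and ((IsT.cntB (e1 _) (e1 _)).and ((IsT.endsB (e1 _)).and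
    ((IsT.endsA (e1 _)).and ((IsT.sub (e1 _) (e1 _)).and ((IsT.sBA hx' (e1 _) (e1 _)).and
    ((IsT.sub (e1 _) (IsT.cons _ (e1 _))).and (IsT.eq hz' (e1 _))))))))))))))))))))

/-! ### numbers -/

variable (G)

/-- The relation of numbers is existentially definable, where `n` is represented by the word `a ^ n`. -/
def NDef {α : Type} (R : (α → ℕ) → Prop) : Prop :=
  ∃ S : (α → List Bool) → Prop, G.WDef S ∧ ∀ v : α → ℕ, R v ↔ S fun i => A (v i)

variable {G}

theorem NDef.congr {R R' : (α → ℕ) → Prop} (h : G.NDef R) (h' : ∀ v, R' v ↔ R v) : G.NDef R' := by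
  obtain ⟨S, hS, h1⟩ := h
  exact ⟨S, hS, fun v => (h' v).trans (h1 v)⟩

theorem NDef.and {R R' : (α → ℕ) → Prop} (h : G.NDef R) (h' : G.NDef R') :
    G.NDef fun v => R v ∧ R' v := by
  obtain ⟨S, hS, h1⟩ := h
  obtain ⟨S', hS', h1'⟩ := h'
  exact ⟨_, hS.and hS', fun v => and_congr (h1 v) (h1' v)⟩

theorem NDef.or {R R' : (α → ℕ) → Prop} (h : G.NDef R) (h' : G.NDef R') :
    G.NDef fun v => R v ∨ R' v := by
  obtain ⟨S, hS, h1⟩ := h
  obtain ⟨S', hS', h1'⟩ := h'
  exact ⟨_, hS.or hS', fun v => or_congr (h1 v) (h1' v)⟩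

theorem NDef.ex {R : ℕ → (α → ℕ) → Prop}
    (h : G.NDef fun w : Option α → ℕ => R (w none) (fun i => w (some i))) :
    G.NDef fun v => ∃ y, R y v := by
  obtain ⟨S, hS, h1⟩ := h
  refine ⟨fun v => ∃ y, ¬ [false].Sublist y ∧ S fun o => match o with
    | none => y
    | some a => v a, ?_, ?_⟩
  · apply WDef.ex
    refine (IsT.nsub (IsT.const _) (IsT.var _)).and (hS.congr ?_)
    intro v
    have : (fun o : Option α => (match o with
      | none => v none
      | some a => v (some a) : List Bool)) = v := by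
      funext o
      cases o <;> rfl
    rw [this]
  · intro v
    constructor
    · rintro ⟨y, hy⟩
      refine ⟨A y, by rw [isA_iff, cA_A], ?_⟩
      have := (h1 (fun o => match o with
        | none => y
        | some a => v a)).1 hy
      convert this using 1
      funext o
      cases o <;> rfl
    · rintro ⟨y, hy, h2⟩
      refine ⟨cA y, ?_⟩
      refine (h1 (fun o => match o with
        | none => cA y
        | some a => v a)).2 ?_
      convert h2 using 1
      funext o
      cases o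
      · exact ((isA_iff y).1 hy).symm
      · rfl

theorem NDef.reindex {β : Type} {R : (α → ℕ) → Prop} (h : G.NDef R) (ι : α → β) :
    G.NDef fun v : β → ℕ => R fun i => v (ι i) := by
  obtain ⟨S, hS, h1⟩ := h
  exact ⟨_, hS.reindex ι, fun v => h1 fun i => v (ι i)⟩

theorem A_inj {a b : ℕ} (h : A a = A b) : a = b := by
  have := congrArg cA h
  rwa [cA_A, cA_A] at this

theorem NDef.eq (i j : α) : G.NDef fun v => v i = v j :=
  ⟨_, IsT.eq (IsT.var i) (IsT.var j), fun _ => ⟨fun h => congrArg A h, fun h => A_inj h⟩⟩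

theorem NDef.const (i : α) (c : ℕ) : G.NDef fun v => v i = c :=
  ⟨_, IsT.eq (IsT.var i) (IsT.const (A c)), fun _ => ⟨fun h => congrArg A h, fun h => A_inj h⟩⟩

theorem NDef.add (i j k : α) : G.NDef fun v => v k = v i + v j := by
  refine ⟨_, IsT.add (IsT.var i) (IsT.var j) (IsT.var k), fun v => ⟨fun h => ⟨v i, v j, rfl, rfl, ?_⟩,
    fun h => ?_⟩⟩
  · exact congrArg A h
  · obtain ⟨n, m, h1, h2, h3⟩ := h
    rw [A_inj h1, A_inj h2, A_inj h3]

theorem NDef.mul (i j k : α) : G.NDef fun v => v k = v i * v j := by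
  have h1 : G.NDef fun v : α → ℕ => 0 < v i ∧ 0 < v j ∧ v k = v i * v j := by
    refine ⟨_, IsT.mul (IsT.var i) (IsT.var j) (IsT.var k), fun v => ⟨fun h => ⟨v i, v j, h.1, h.2.1,
      rfl, rfl, ?_⟩, fun h => ?_⟩⟩
    · exact congrArg A h.2.2
    · obtain ⟨n, m, hn, hm, h1, h2, h3⟩ := h
      rw [A_inj h1, A_inj h2, A_inj h3]
      exact ⟨hn, hm, rfl⟩
  have h2 : G.NDef fun v : α → ℕ => (0 < v i ∧ 0 < v j ∧ v k = v i * v j) ∨
      ((v i = 0 ∨ v j = 0) ∧ v k = 0) :=
    h1.or (((NDef.const i 0).or (NDef.const j 0)).and (NDef.const k 0))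
  refine h2.congr fun v => ?_
  constructor
  · intro h
    by_cases hi : v i = 0
    · right
      rw [hi, zero_mul] at h
      exact ⟨Or.inl hi, h⟩
    by_cases hj : v j = 0
    · right
      rw [hj, mul_zero] at h
      exact ⟨Or.inr hj, h⟩
    exact Or.inl ⟨Nat.pos_of_ne_zero hi, Nat.pos_of_ne_zero hj, h⟩
  · rintro (⟨_, _, h⟩ | ⟨h | h, h'⟩)
    · exact h
    · rw [h', h, zero_mul]
    · rw [h', h, mul_zero]

variable (G)

/-- The graph of the function is existentially definable. -/
def NFn {α : Type} (f : (α → ℕ) → ℕ) : Prop :=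
  G.NDef fun w : Option α → ℕ => w none = f fun i => w (some i)

variable {G}

theorem NFn.add {f g : (α → ℕ) → ℕ} (hf : G.NFn f) (hg : G.NFn g) : G.NFn fun v => f v + g v := by
  have h1 : G.NDef fun w : Option α → ℕ => ∃ a b, (a = f fun i => w (some i)) ∧
      (b = g fun i => w (some i)) ∧ w none = a + b := by
    refine NDef.ex (NDef.ex ?_)
    refine (hf.reindex fun o => match o with
      | none => some none
      | some i => some (some (some i))).and ((hg.reindex fun o => match o with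
      | none => none
      | some i => some (some (some i))).and (NDef.add (some none) none (some (some none))))
  refine h1.congr fun w => ?_
  constructor
  · intro h
    exact ⟨_, _, rfl, rfl, h⟩
  · rintro ⟨a, b, rfl, rfl, h⟩
    exact h

theorem NFn.mul {f g : (α → ℕ) → ℕ} (hf : G.NFn f) (hg : G.NFn g) : G.NFn fun v => f v * g v := by
  have h1 : G.NDef fun w : Option α → ℕ => ∃ a b, (a = f fun i => w (some i)) ∧
      (b = g fun i => w (some i)) ∧ w none = a * b := by
    refine NDef.ex (NDef.ex ?_)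
    refine (hf.reindex fun o => match o with
      | none => some none
      | some i => some (some (some i))).and ((hg.reindex fun o => match o with
      | none => none
      | some i => some (some (some i))).and (NDef.mul (some none) none (some (some none))))
  refine h1.congr fun w => ?_
  constructor
  · intro h
    exact ⟨_, _, rfl, rfl, h⟩
  · rintro ⟨a, b, rfl, rfl, h⟩
    exact h

theorem NFn.proj (i : α) : G.NFn fun v => v i := NDef.eq none (some i)

theorem NFn.const (c : ℕ) : G.NFn fun _ : α → ℕ => c := NDef.const none c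

theorem poly {p : (α → ℕ) → ℤ} (hp : IsPoly p) : ∃ f g : (α → ℕ) → ℕ, G.NFn f ∧ G.NFn g ∧
    ∀ v, p v = (f v : ℤ) - g v := by
  induction hp with
  | proj i => exact ⟨fun v => v i, fun _ => 0, NFn.proj i, NFn.const 0, fun v => by simp⟩
  | const n =>
    refine ⟨fun _ => n.toNat, fun _ => (-n).toNat, NFn.const _, NFn.const _, fun v => ?_⟩
    simp only
    omega
  | sub _ _ ih1 ih2 =>
    obtain ⟨f1, g1, hf1, hg1, h1⟩ := ih1
    obtain ⟨f2, g2, hf2, hg2, h2⟩ := ih2
    refine ⟨_, _, hf1.add hg2, hg1.add hf2, fun v => ?_⟩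
    beta_reduce
    rw [h1, h2]
    push_cast
    ring
  | mul _ _ ih1 ih2 =>
    obtain ⟨f1, g1, hf1, hg1, h1⟩ := ih1
    obtain ⟨f2, g2, hf2, hg2, h2⟩ := ih2
    refine ⟨_, _, (hf1.mul hf2).add (hg1.mul hg2), (hf1.mul hg2).add (hg1.mul hf2), fun v => ?_⟩
    beta_reduce
    rw [h1, h2]
    push_cast
    ring

theorem poly_zero {p : (α → ℕ) → ℤ} (hp : IsPoly p) : G.NDef fun v => p v = 0 := by
  obtain ⟨f, g, hf, hg, h⟩ := poly (G := G) hp
  have h1 : G.NDef fun v : α → ℕ => ∃ a, a = f v ∧ a = g v := by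
    refine NDef.ex (NDef.and hf hg)
  refine h1.congr fun v => ?_
  rw [h]
  constructor
  · intro h2
    refine ⟨f v, rfl, ?_⟩
    omega
  · rintro ⟨a, h2, h3⟩
    omega

theorem NDef.exFin (β : Type) [Finite β] : ∀ {α : Type} {R : (α ⊕ β → ℕ) → Prop}, G.NDef R →
    G.NDef fun v : α → ℕ => ∃ t : β → ℕ, R (Sum.elim v t) := by
  refine Finite.induction_empty_option (P := fun β : Type => ∀ {α : Type} {R : (α ⊕ β → ℕ) → Prop},
    G.NDef R → G.NDef fun v : α → ℕ => ∃ t : β → ℕ, R (Sum.elim v t)) ?_ ?_ ?_ β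
  · intro β γ e ih α R hR
    have h1 := ih (hR.reindex (Sum.map id e.symm : α ⊕ γ → α ⊕ β))
    refine h1.congr fun v => ?_
    constructor
    · rintro ⟨t, ht⟩
      refine ⟨fun b => t (e b), ?_⟩
      convert ht using 1
      funext i
      rcases i with i | i
      · rfl
      · show t (e (e.symm i)) = t i
        rw [e.apply_symm_apply]
    · rintro ⟨t, ht⟩
      refine ⟨fun c => t (e.symm c), ?_⟩
      convert ht using 1
      funext i
      rcases i with i | i <;> rfl
  · intro α R hR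
    have h1 := hR.reindex (Sum.elim id (fun x : PEmpty => x.elim) : α ⊕ PEmpty → α)
    refine h1.congr fun v => ?_
    constructor
    · rintro ⟨t, ht⟩
      convert ht using 1
      funext i
      rcases i with i | i
      · rfl
      · exact i.elim
    · intro h
      refine ⟨fun x => x.elim, ?_⟩
      convert h using 1
      funext i
      rcases i with i | i
      · rfl
      · exact i.elim
  · intro β _ ih α R hR
    have h1 := ih (hR.reindex (fun i : α ⊕ Option β => match i with
      | Sum.inl a => (Sum.inl (some a) : Option α ⊕ β)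
      | Sum.inr none => Sum.inl none
      | Sum.inr (some b) => Sum.inr b))
    have h2 := NDef.ex (R := fun y v => ∃ t : β → ℕ, R (fun i : α ⊕ Option β => match i with
      | Sum.inl a => v a
      | Sum.inr none => y
      | Sum.inr (some b) => t b)) (h1.congr fun w => by
        apply exists_congr
        intro t
        apply iff_of_eq
        congr 1
        funext i
        rcases i with a | (_ | b) <;> rfl)
    refine h2.congr fun v => ?_
    constructor
    · rintro ⟨t, ht⟩
      refine ⟨t none, fun b => t (some b), ?_⟩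
      convert ht using 1
      funext i
      rcases i with a | (_ | b) <;> rfl
    · rintro ⟨y, t, ht⟩
      refine ⟨fun o => match o with
        | none => y
        | some b => t b, ?_⟩
      convert ht using 1
      funext i
      rcases i with a | (_ | b) <;> rfl

end Good

end Pool.Agent.J4.H57.RP
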