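import Pool.Agent.J4.H57.RP.Words

/-!
# The words are defined among the ground terms by a quantifier-free formula
-/

set_option autoImplicit false

namespace Pool.Agent.J4.H57.RP

variable {F : Sig}

namespace Good

variable (G : Good F)

/-- `h(e, …, e)` -/
def cst (h : Fin F.n) : Tree F := .app h fun _ => G.E

/-- `f(e, …, e, f'(e, …, e), e, …, e)` -/
def bd (c d : Bool) (i : Fin (F.ar (G.s c))) : Tree F :=
  .app (G.s c) fun j => if j = i then G.cst (G.s d) else G.E

theorem cst_wd (d : Bool) : G.cst (G.s d) = G.wd [d] := by
  unfold cst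
  show _ = Tree.app (G.s d) (G.args d G.E)
  congr 1
  funext i
  rcases G.args_cases d G.E i with ⟨_, h⟩ | ⟨_, h⟩ <;> rw [h]

/-- the forbidden terms -/
def Bad (b : Tree F) : Prop :=
  (∃ h, h ≠ G.s true ∧ h ≠ G.s false ∧ h ≠ G.e ∧ b = G.cst h) ∨
    ∃ c d i, i ≠ G.last c ∧ b = G.bd c d i

theorem bad_not_word {b : Tree F} (hb : G.Bad b) (u : List Bool) : b ≠ G.wd u := by
  rintro rfl
  rcases hb with ⟨h, h1, h2, h3, h4⟩ | ⟨c, d, i, h1, h2⟩
  · cases u with
    | nil =>
      unfold wd E cst at h4
      injection h4 with h5 h6
      exact h3 h5.symm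
    | cons c u =>
      unfold wd cst at h4
      injection h4 with h5 h6
      cases c
      · exact h2 h5.symm
      · exact h1 h5.symm
  · cases u with
    | nil =>
      unfold wd E bd at h2
      injection h2 with h5 h6
      exact G.s_ne_e c h5.symm
    | cons c' u =>
      unfold wd bd at h2
      injection h2 with h5 h6
      have h7 := G.s_inj h5
      subst h7
      have h8 := congrFun (eq_of_heq h6) i
      rw [G.args_ne _ h1] at h8
      simp only [if_true] at h8
      rw [cst_wd] at h8
      have h9 := G.wd_inj (u := []) h8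
      simp at h9

theorem word_or_bad (x : Tree F) : (∃ u, x = G.wd u) ∨ ∃ b, G.Bad b ∧ (Gt x b ∨ x = b) := by
  induction x with
  | app h ss ih =>
    by_cases hex : ∃ i, ∃ b, G.Bad b ∧ (Gt (ss i) b ∨ ss i = b)
    · right
      obtain ⟨i, b, hb, h1⟩ := hex
      refine ⟨b, hb, Or.inl ?_⟩
      rcases h1 with h1 | h1
      · exact Gt.sub_gt _ _ _ i h1
      · apply Gt.sub_eqv _ _ _ i
        rw [h1]
        exact Eqv.refl _
    have hw : ∀ i, ∃ u, ss i = G.wd u := by
      intro i
      rcases ih i with h1 | h1
      · exact h1
      · exact absurd ⟨i, h1⟩ hex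
    choose u hu using hw
    by_cases he : h = G.e
    · left
      subst he
      exact ⟨[], G.eq_E ss⟩
    by_cases hs : ∃ c, h = G.s c
    · obtain ⟨c, rfl⟩ := hs
      by_cases hall : ∀ i, i ≠ G.last c → u i = []
      · left
        refine ⟨c :: u (G.last c), ?_⟩
        rw [wd]
        congr 1
        funext i
        rcases G.args_cases c (G.wd (u (G.last c))) i with ⟨h1, h2⟩ | ⟨h1, h2⟩
        · rw [h2, hu i, h1]
        · rw [h2, hu i, hall i h1]
          rfl
      · push Not at hall
        obtain ⟨i0, hi0, hi0'⟩ := hall
        obtain ⟨i, hi, hmin⟩ := WellFounded.has_min (wellFounded_lt (α := Fin (F.ar (G.s c))))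
          {i | u i ≠ []} ⟨i0, hi0'⟩
        have hi1 : i ≠ G.last c := by
          intro h1
          have h2 : ¬ i0 < i := hmin i0 hi0'
          apply h2
          rw [h1]
          have h3 : (i0 : ℕ) ≠ F.ar (G.s c) - 1 := fun h9 => hi0 (Fin.ext h9)
          have h4 := i0.2
          show (i0 : ℕ) < F.ar (G.s c) - 1
          omega
        have hlex : ¬ F.mul (G.s c) := by
          intro hm
          have h1 := G.mul c hm
          apply hi1
          apply G.eq_last
          have := i.2
          omega
        obtain ⟨d, u', hdu⟩ : ∃ d u', u i = d :: u' := by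
          cases h1 : u i with
          | nil => exact absurd h1 hi
          | cons d u' => exact ⟨d, u', rfl⟩
        right
        refine ⟨G.bd c d i, Or.inr ⟨c, d, i, hi1, rfl⟩, ?_⟩
        by_cases heq : ∀ k, ss k = if k = i then G.cst (G.s d) else G.E
        · right
          unfold bd
          congr 1
          funext k
          exact heq k
        left
        push Not at heq
        obtain ⟨k0, hk0⟩ := heq
        obtain ⟨k, hk, hkmin⟩ := WellFounded.has_min (wellFounded_lt (α := Fin (F.ar (G.s c))))
          {k | ss k ≠ if k = i then G.cst (G.s d) else G.E} ⟨k0, hk0⟩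
        have hdE : Gt (G.wd (d :: u')) G.E := G.gt_E (by simp)
        have hsi : ss i = G.wd (d :: u') := by rw [hu i, hdu]
        unfold bd
        refine Gt.lex _ _ _ k hlex ?_ ?_ ?_
        · intro j
          by_cases hj : j = i
          · simp only [if_pos hj]
            rw [cst_wd]
            by_cases h1 : u' = []
            · apply Gt.sub_eqv _ _ _ i
              rw [hsi, h1]
              exact Eqv.refl _
            · apply Gt.sub_gt _ _ _ i
              rw [hsi, gt_wd]
              refine ⟨(List.nil_sublist _).cons_cons _, ?_⟩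
              intro h2
              injection h2 with h3 h4
              exact h1 h4.symm
          · simp only [if_neg hj]
            apply Gt.sub_gt _ _ _ i
            rw [hsi]
            exact hdE
        · intro j hj
          have h1 : ¬ (ss j ≠ if j = i then G.cst (G.s d) else G.E) := fun h2 => hkmin j h2 hj
          rw [not_not] at h1
          show Eqv (ss j) (if j = i then G.cst (G.s d) else G.E)
          rw [h1]
          exact Eqv.refl _
        · have hk' : ss k ≠ if k = i then G.cst (G.s d) else G.E := hk
          show Gt (ss k) (if k = i then G.cst (G.s d) else G.E)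
          by_cases hki : k = i
          · rw [if_pos hki] at hk' ⊢
            rw [hki, hsi] at hk' ⊢
            rw [cst_wd] at hk' ⊢
            rw [gt_wd]
            refine ⟨(List.nil_sublist _).cons_cons _, ?_⟩
            intro h2
            exact hk' (by rw [h2])
          · rw [if_neg hki] at hk' ⊢
            rw [hu k] at hk' ⊢
            apply G.gt_E
            intro h2
            apply hk'
            rw [h2]
            rfl
    · right
      refine ⟨G.cst h, Or.inl ⟨h, fun h1 => hs ⟨true, h1⟩, fun h1 => hs ⟨false, h1⟩, he, rfl⟩, ?_⟩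
      by_cases hall : ∀ i, u i = []
      · right
        unfold cst
        congr 1
        funext i
        rw [hu i, hall i]
        rfl
      left
      push Not at hall
      obtain ⟨i0, hi0⟩ := hall
      have hE : ∀ i, u i ≠ [] → Gt (ss i) G.E := by
        intro i hi
        rw [hu i]
        exact G.gt_E hi
      unfold cst
      by_cases hm : F.mul h
      · refine Gt.mul _ _ _ {i | u i = []} id id hm (fun j => Gt.sub_gt _ _ _ i0 (hE i0 hi0))
          ⟨i0, hi0⟩ Function.injective_id.injOn ?_ ?_ ?_
        · intro i hi
          have hi' : u i = [] := hi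
          rw [hu i, hi']
          exact Eqv.refl _
        · intro j hj
          rw [Set.image_id] at hj
          exact hj
        · intro j hj
          rw [Set.image_id] at hj
          exact hE j hj
      · obtain ⟨i, hi, hmin⟩ := WellFounded.has_min (wellFounded_lt (α := Fin (F.ar h)))
          {i | u i ≠ []} ⟨i0, hi0⟩
        refine Gt.lex _ _ _ i hm (fun j => Gt.sub_gt _ _ _ i0 (hE i0 hi0)) ?_ (hE i hi)
        intro j hj
        have h1 : ¬ (u j ≠ []) := fun h2 => hmin j h2 hj
        rw [not_not] at h1
        rw [hu j, h1]
        exact Eqv.refl _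

theorem word_iff (x : Tree F) : (∃ u, x = G.wd u) ↔ ∀ b, G.Bad b → ¬ Gt x b ∧ x ≠ b := by
  constructor
  · rintro ⟨u, rfl⟩ b hb
    refine ⟨fun h => ?_, fun h => G.bad_not_word hb u h.symm⟩
    obtain ⟨v, hv⟩ := G.down u b h
    exact G.bad_not_word hb v hv
  · intro h
    rcases G.word_or_bad x with h1 | ⟨b, hb, h1⟩
    · exact h1
    · exfalso
      rcases h1 with h1 | h1
      · exact (h b hb).1 h1
      · exact (h b hb).2 h1

/-! ### the formula -/

section formula

variable {V : Type}

/-- the constant as a term -/
def ET : Tm F V := .app G.e fun i => (Fin.cast G.ar_e i).elim0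

theorem ET_val (v : V → Tree F) : (G.ET : Tm F V).val v = G.E := by
  unfold ET
  rw [Tm.val]
  exact G.eq_E _

/-- `h(e, …, e)` as a term -/
def cstT (h : Fin F.n) : Tm F V := .app h fun _ => G.ET

theorem cstT_val (v : V → Tree F) (h : Fin F.n) : (G.cstT h : Tm F V).val v = G.cst h := by
  unfold cstT cst
  rw [Tm.val]
  simp only [ET_val]

/-- the forbidden term as a term -/
def bdT (c d : Bool) (i : Fin (F.ar (G.s c))) : Tm F V :=
  .app (G.s c) fun j => if j = i then G.cstT (G.s d) else G.ET

theorem bdT_val (v : V → Tree F) (c d : Bool) (i : Fin (F.ar (G.s c))) :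
    (G.bdT c d i : Tm F V).val v = G.bd c d i := by
  unfold bdT bd
  rw [Tm.val]
  congr 1
  funext j
  split_ifs
  · exact G.cstT_val v _
  · exact G.ET_val v

/-- conjunction of a list of formulas -/
def all : List (Fml F V) → Fml F V
  | [] => .eq G.ET G.ET
  | φ :: l => .and φ (all l)

theorem holds_all (v : V → Tree F) (l : List (Fml F V)) :
    (G.all l).Holds v ↔ ∀ φ ∈ l, φ.Holds v := by
  induction l with
  | nil => simp [all, Fml.Holds]
  | cons φ l ih => simp [all, Fml.Holds, ih]

/-- the list of the forbidden terms -/
def bads : List (Tm F V) :=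
  (((List.finRange F.n).filter fun h => h ≠ G.s true ∧ h ≠ G.s false ∧ h ≠ G.e).map G.cstT) ++
    [true, false].flatMap fun c => [true, false].flatMap fun d =>
      (((List.finRange (F.ar (G.s c))).filter fun i => i ≠ G.last c).map (G.bdT c d))

theorem bads_iff (v : V → Tree F) (P : Tree F → Prop) :
    (∀ t ∈ (G.bads : List (Tm F V)), P (t.val v)) ↔ ∀ b, G.Bad b → P b := by
  constructor
  · rintro h b (⟨f, h1, h2, h3, rfl⟩ | ⟨c, d, i, h1, rfl⟩)
    · rw [← G.cstT_val v f]
      apply h
      unfold bads
      rw [List.mem_append]
      left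
      rw [List.mem_map]
      refine ⟨f, ?_, rfl⟩
      rw [List.mem_filter]
      exact ⟨List.mem_finRange f, by simp [h1, h2, h3]⟩
    · rw [← G.bdT_val v c d i]
      apply h
      unfold bads
      rw [List.mem_append]
      right
      rw [List.mem_flatMap]
      refine ⟨c, by cases c <;> simp, ?_⟩
      rw [List.mem_flatMap]
      refine ⟨d, by cases d <;> simp, ?_⟩
      rw [List.mem_map]
      refine ⟨i, ?_, rfl⟩
      rw [List.mem_filter]
      exact ⟨List.mem_finRange i, by simp [h1]⟩
  · intro h t ht
    unfold bads at ht
    rw [List.mem_append] at ht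
    rcases ht with ht | ht
    · rw [List.mem_map] at ht
      obtain ⟨f, hf, rfl⟩ := ht
      rw [List.mem_filter] at hf
      rw [G.cstT_val]
      apply h
      left
      have := hf.2
      simp only [decide_eq_true_eq] at this
      exact ⟨f, this.1, this.2.1, this.2.2, rfl⟩
    · rw [List.mem_flatMap] at ht
      obtain ⟨c, _, ht⟩ := ht
      rw [List.mem_flatMap] at ht
      obtain ⟨d, _, ht⟩ := ht
      rw [List.mem_map] at ht
      obtain ⟨i, hi, rfl⟩ := ht
      rw [List.mem_filter] at hi
      rw [G.bdT_val]
      apply h
      right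
      have := hi.2
      simp only [decide_eq_true_eq] at this
      exact ⟨c, d, i, this, rfl⟩

/-- the formula that `t` is a word -/
def isW (t : Tm F V) : Fml F V :=
  G.all (G.bads.map fun b => .and (.not (.gt t b)) (.not (.eq t b)))

theorem isW_holds (v : V → Tree F) (t : Tm F V) :
    (G.isW t).Holds v ↔ ∃ u, t.val v = G.wd u := by
  unfold isW
  rw [holds_all, word_iff, ← G.bads_iff v]
  simp only [List.forall_mem_map, Fml.Holds]

/-- the word `c :: t` as a term -/
def consT (c : Bool) (t : Tm F V) : Tm F V :=
  .app (G.s c) fun i => if (i : ℕ) + 1 = F.ar (G.s c) then t else G.ET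

theorem consT_val (v : V → Tree F) (c : Bool) (t : Tm F V) {u : List Bool} (h : t.val v = G.wd u) :
    (G.consT c t).val v = G.wd (c :: u) := by
  unfold consT
  rw [Tm.val, wd]
  congr 1
  funext i
  unfold args
  split_ifs
  · exact h
  · exact G.ET_val v

end formula

end Good

end Pool.Agent.J4.H57.RP
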