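import Pool.Agent.J4.H57.RP.Dfn

/-!
# Undecidability of the existential fragment
-/

set_option autoImplicit false

namespace Pool.Agent.J4.H57.RP

variable {F : Sig}

/-! ### the codes -/

theorem flatten_inj {F : Sig} (m : ℕ) : ∀ (ss ts : Fin m → Tm F ℕ),
    (∀ i, ∀ t : Tm F ℕ, ∀ l l' : List ℕ, (ss i).code ++ l = t.code ++ l' → ss i = t ∧ l = l') →
    ∀ l l' : List ℕ, (List.ofFn fun i => (ss i).code).flatten ++ l =
      (List.ofFn fun i => (ts i).code).flatten ++ l' → ss = ts ∧ l = l' := by
  induction m with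
  | zero =>
    intro ss ts _ l l' h
    refine ⟨?_, by simpa using h⟩
    funext i
    exact i.elim0
  | succ m ih =>
    intro ss ts hs l l' h
    rw [List.ofFn_succ, List.ofFn_succ, List.flatten_cons, List.flatten_cons, List.append_assoc,
      List.append_assoc] at h
    obtain ⟨h1, h2⟩ := hs 0 _ _ _ h
    obtain ⟨h3, h4⟩ := ih (fun i => ss i.succ) (fun i => ts i.succ) (fun i => hs i.succ) _ _ h2
    refine ⟨?_, h4⟩
    funext i
    refine Fin.cases h1 (fun j => ?_) i
    exact congrFun h3 j

theorem Tm.code_inj (s : Tm F ℕ) : ∀ (t : Tm F ℕ) (l l' : List ℕ), s.code ++ l = t.code ++ l' →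
    s = t ∧ l = l' := by
  induction s with
  | var x =>
    intro t l l' h
    cases t with
    | var y =>
      simp only [Tm.code, List.cons_append, List.nil_append, List.cons.injEq, true_and] at h
      exact ⟨by rw [h.1], h.2⟩
    | app g ts =>
      simp [Tm.code] at h
  | app f ss ih =>
    intro t l l' h
    cases t with
    | var y =>
      simp [Tm.code] at h
    | app g ts =>
      rw [Tm.code, Tm.code, List.cons_append, List.cons_append, List.cons.injEq] at h
      obtain ⟨h1, h2⟩ := h
      have h3 : f = g := Fin.ext (by omega)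
      subst h3
      obtain ⟨h4, h5⟩ := flatten_inj _ ss ts ih l l' h2
      exact ⟨by rw [h4], h5⟩

theorem Fml.code_inj (φ : Fml F ℕ) : ∀ (ψ : Fml F ℕ) (l l' : List ℕ), φ.code ++ l = ψ.code ++ l' →
    φ = ψ ∧ l = l' := by
  induction φ with
  | eq s t =>
    intro ψ l l' h
    cases ψ with
    | eq s' t' =>
      simp only [Fml.code, List.cons_append, List.append_assoc, List.cons.injEq, true_and] at h
      obtain ⟨h1, h2⟩ := Tm.code_inj _ _ _ _ h
      obtain ⟨h3, h4⟩ := Tm.code_inj _ _ _ _ h2
      exact ⟨by rw [h1, h3], h4⟩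
    | gt s' t' => simp [Fml.code] at h
    | not ψ => simp [Fml.code] at h
    | and ψ ψ' => simp [Fml.code] at h
    | or ψ ψ' => simp [Fml.code] at h
  | gt s t =>
    intro ψ l l' h
    cases ψ with
    | eq s' t' => simp [Fml.code] at h
    | gt s' t' =>
      simp only [Fml.code, List.cons_append, List.append_assoc, List.cons.injEq, true_and] at h
      obtain ⟨h1, h2⟩ := Tm.code_inj _ _ _ _ h
      obtain ⟨h3, h4⟩ := Tm.code_inj _ _ _ _ h2
      exact ⟨by rw [h1, h3], h4⟩
    | not ψ => simp [Fml.code] at h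
    | and ψ ψ' => simp [Fml.code] at h
    | or ψ ψ' => simp [Fml.code] at h
  | not φ ih =>
    intro ψ l l' h
    cases ψ with
    | eq s' t' => simp [Fml.code] at h
    | gt s' t' => simp [Fml.code] at h
    | not ψ =>
      simp only [Fml.code, List.cons_append, List.cons.injEq, true_and] at h
      obtain ⟨h1, h2⟩ := ih _ _ _ h
      exact ⟨by rw [h1], h2⟩
    | and ψ ψ' => simp [Fml.code] at h
    | or ψ ψ' => simp [Fml.code] at h
  | and φ φ' ih ih' =>
    intro ψ l l' h
    cases ψ with
    | eq s' t' => simp [Fml.code] at h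
    | gt s' t' => simp [Fml.code] at h
    | not ψ => simp [Fml.code] at h
    | and ψ ψ' =>
      simp only [Fml.code, List.cons_append, List.append_assoc, List.cons.injEq, true_and] at h
      obtain ⟨h1, h2⟩ := ih _ _ _ h
      obtain ⟨h3, h4⟩ := ih' _ _ _ h2
      exact ⟨by rw [h1, h3], h4⟩
    | or ψ ψ' => simp [Fml.code] at h
  | or φ φ' ih ih' =>
    intro ψ l l' h
    cases ψ with
    | eq s' t' => simp [Fml.code] at h
    | gt s' t' => simp [Fml.code] at h
    | not ψ => simp [Fml.code] at h
    | and ψ ψ' => simp [Fml.code] at h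
    | or ψ ψ' =>
      simp only [Fml.code, List.cons_append, List.append_assoc, List.cons.injEq, true_and] at h
      obtain ⟨h1, h2⟩ := ih _ _ _ h
      obtain ⟨h3, h4⟩ := ih' _ _ _ h2
      exact ⟨by rw [h1, h3], h4⟩

theorem code_injective (F : Sig) : Function.Injective (Fml.code (F := F)) := by
  intro φ ψ h
  exact (Fml.code_inj φ ψ [] [] (by rw [h])).1

/-! ### recursively enumerable sets are definable -/

namespace Good

variable (G : Good F)

/-- Every recursively enumerable set of numbers is existentially definable. -/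
theorem definable {q : ℕ → Prop} (hq : REPred q) :
    ∃ φ : Fml F ℕ, ∀ n, q n ↔ ∃ v : ℕ → Tree F, v 0 = G.wd (A n) ∧ φ.Holds v := by
  obtain ⟨δ, _, p, hp⟩ := Helper844.Dio.finite_dummies (Helper844.Dio.dprm hq)
  have h1 : G.NDef fun v : Unit ⊕ δ → ℕ => p v = 0 := poly_zero p.2
  have h2 := NDef.exFin δ h1
  obtain ⟨S, ⟨φ, hφ⟩, hS⟩ := h2
  refine ⟨φ.ren (Sum.elim (fun _ => 0) (fun k => k + 1)), fun n => ?_⟩
  have h3 : q n ↔ ∃ t : δ → ℕ, p (Sum.elim (fun _ : Unit => n) t) = 0 := hp fun _ : Unit => n
  rw [h3]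
  have h4 := hS fun _ : Unit => n
  beta_reduce at h4
  rw [h4, hφ]
  simp only [Fml.ren_holds]
  constructor
  · rintro ⟨w, hw⟩
    refine ⟨fun k => match k with
      | 0 => G.wd (A n)
      | k + 1 => w k, rfl, ?_⟩
    convert hw using 1
    funext x
    rcases x with x | k <;> rfl
  · rintro ⟨v, hv, h5⟩
    refine ⟨fun k => v (k + 1), ?_⟩
    convert h5 using 1
    funext x
    rcases x with x | k
    · exact hv.symm
    · rfl

/-- the numeral -/
def numT : ℕ → Tm F ℕ
  | 0 => G.ET
  | n + 1 => G.consT true (numT n)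

theorem numT_val (v : ℕ → Tree F) (n : ℕ) : (G.numT n).val v = G.wd (A n) := by
  induction n with
  | zero => exact G.ET_val v
  | succ n ih => exact G.consT_val v true _ ih

theorem flatten_last (x g : List ℕ) (m : ℕ) (hm : 0 < m) :
    (List.ofFn fun i : Fin m => if (i : ℕ) + 1 = m then x else g).flatten =
      (List.replicate (m - 1) g).flatten ++ x := by
  obtain ⟨k, rfl⟩ : ∃ k, m = k + 1 := ⟨m - 1, by omega⟩
  rw [List.ofFn_succ', List.concat_eq_append, List.flatten_append]
  congr 1
  · congr 1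
    apply List.ext_getElem
    · simp
    · intro i h1 h2
      simp only [List.getElem_ofFn, List.getElem_replicate]
      rw [if_neg]
      simp at h1
      simp
      omega
  · simp

theorem consT_code (t : Tm F ℕ) : (G.consT true t).code =
    (((G.s true : ℕ) + 1) :: (List.replicate (F.ar (G.s true) - 1) (G.ET (V := ℕ)).code).flatten) ++
      t.code := by
  unfold consT
  rw [Tm.code]
  have h : (fun i : Fin (F.ar (G.s true)) =>
      (if (i : ℕ) + 1 = F.ar (G.s true) then t else G.ET).code) =
      fun i : Fin (F.ar (G.s true)) => if (i : ℕ) + 1 = F.ar (G.s true) then t.code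
        else (G.ET (V := ℕ)).code := by
    funext i
    split_ifs <;> rfl
  rw [h, flatten_last _ _ _ (G.pos true)]
  rfl

/-- the formulas of the reduction -/
def Φ (φ : Fml F ℕ) (n : ℕ) : Fml F ℕ := .and (.eq (.var 0) (G.numT n)) φ

theorem Φ_computable (φ : Fml F ℕ) : Computable fun n => (G.Φ φ n).code := by
  obtain ⟨pre, hpre⟩ : ∃ pre : List ℕ, ∀ t, (G.consT true t).code = pre ++ t.code :=
    ⟨_, G.consT_code⟩
  have h1 : ∀ n, (G.numT n).code = Nat.rec (G.ET (V := ℕ)).code (fun _ ih => pre ++ ih) n := by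
    intro n
    induction n with
    | zero => rfl
    | succ n ih =>
      rw [numT, hpre, ih]
  have h2 : Primrec fun n : ℕ => (G.numT n).code := by
    have h3 : Primrec fun n : ℕ =>
        (Nat.rec (G.ET (V := ℕ)).code (fun _ ih => pre ++ ih) n : List ℕ) :=
      Primrec.nat_rec₁ _ (Primrec.list_append.comp (Primrec.const pre) Primrec.snd)
    exact h3.of_eq fun n => (h1 n).symm
  have h3 : Primrec fun n : ℕ => (G.Φ φ n).code := by
    have h4 : ∀ n, (G.Φ φ n).code = ([3, 0, 0, 0] ++ (G.numT n).code) ++ φ.code := by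
      intro n
      rfl
    exact (Primrec.list_append.comp (Primrec.list_append.comp (Primrec.const _) h2)
      (Primrec.const _)).of_eq fun n => (h4 n).symm
  exact h3.to_comp

theorem Φ_true {φ : Fml F ℕ} (n : ℕ) : (G.Φ φ n).IsTrue ↔
    ∃ v : ℕ → Tree F, v 0 = G.wd (A n) ∧ φ.Holds v := by
  unfold Φ Fml.IsTrue
  simp only [Fml.Holds, numT_val]
  rfl

include G in
theorem hard {q : ℕ → Prop} (hq : REPred q) :
    ∃ Φ : ℕ → Fml F ℕ, Computable (fun n => (Φ n).code) ∧ ∀ n, q n ↔ (Φ n).IsTrue := by
  obtain ⟨φ, hφ⟩ := G.definable hq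
  exact ⟨G.Φ φ, G.Φ_computable φ, fun n => (hφ n).trans (G.Φ_true n).symm⟩

end Good

/-- If every recursively enumerable set is reducible to the true sentences then the fragment is
undecidable. -/
theorem undecidable (h : ∀ q : ℕ → Prop, REPred q →
    ∃ Φ : ℕ → Fml F ℕ, Computable (fun n => (Φ n).code) ∧ ∀ n, q n ↔ (Φ n).IsTrue) :
    ¬ ExDecidable F := by
  rintro ⟨d, hd, hd'⟩
  have hq : REPred fun n : ℕ => ((Denumerable.ofNat Nat.Partrec.Code n).eval 0).Dom :=
    (ComputablePred.halting_problem_re 0).comp (Computable.ofNat Nat.Partrec.Code)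
  obtain ⟨Φ, h1, h2⟩ := h _ hq
  apply ComputablePred.halting_problem 0
  apply ComputablePred.computable_iff.2
  refine ⟨fun c => d (Φ (Encodable.encode c)).code, hd.comp (h1.comp Computable.encode), ?_⟩
  funext c
  have h3 := h2 (Encodable.encode c)
  rw [Denumerable.ofNat_encode] at h3
  rw [hd']
  exact propext h3

end Pool.Agent.J4.H57.RP
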