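import Pool.Agent.J4.H57.RP.Defs

/-!
# Words as ground terms: the recursive path ordering is the subword ordering
-/

set_option autoImplicit false

namespace Pool.Agent.J4.H57.RP

variable {F : Sig}

theorem gt_iff (f : Fin F.n) (ss : Fin (F.ar f) → Tree F) (t : Tree F) :
    Gt (.app f ss) t ↔ (∃ i, Gt (ss i) t ∨ Eqv (ss i) t) ∨
      (∃ g, ∃ ts : Fin (F.ar g) → Tree F, t = .app g ts ∧ F.prec f g ∧ ∀ j, Gt (.app f ss) (ts j)) ∨
      ∃ ts : Fin (F.ar f) → Tree F, t = .app f ts ∧ (∀ j, Gt (.app f ss) (ts j)) ∧
        ((¬ F.mul f ∧ ∃ i, (∀ j, j < i → Eqv (ss j) (ts j)) ∧ Gt (ss i) (ts i)) ∨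
         (F.mul f ∧ ∃ (A : Set (Fin (F.ar f))) (σ w : Fin (F.ar f) → Fin (F.ar f)),
            (∃ i, i ∉ A) ∧ Set.InjOn σ A ∧ (∀ i ∈ A, Eqv (ss i) (ts (σ i))) ∧
            (∀ j, j ∉ σ '' A → w j ∉ A) ∧ (∀ j, j ∉ σ '' A → Gt (ss (w j)) (ts j)))) := by
  constructor
  · intro h
    cases h with
    | sub_gt _ _ _ i h => exact Or.inl ⟨i, Or.inl h⟩
    | sub_eqv _ _ _ i h => exact Or.inl ⟨i, Or.inr h⟩
    | prec _ g _ ts h1 h2 => exact Or.inr (Or.inl ⟨g, ts, rfl, h1, h2⟩)
    | lex _ _ ts i h1 h2 h3 h4 => exact Or.inr (Or.inr ⟨ts, rfl, h2, Or.inl ⟨h1, i, h3, h4⟩⟩)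
    | mul _ _ ts A σ w h1 h2 h3 h4 h5 h6 h7 =>
      exact Or.inr (Or.inr ⟨ts, rfl, h2, Or.inr ⟨h1, A, σ, w, h3, h4, h5, h6, h7⟩⟩)
  · rintro (⟨i, h | h⟩ | ⟨g, ts, rfl, h1, h2⟩ | ⟨ts, rfl, h2, ⟨h1, i, h3, h4⟩ |
      ⟨h1, A, σ, w, h3, h4, h5, h6, h7⟩⟩)
    · exact Gt.sub_gt _ _ _ i h
    · exact Gt.sub_eqv _ _ _ i h
    · exact Gt.prec _ _ _ _ h1 h2
    · exact Gt.lex _ _ _ i h1 h2 h3 h4
    · exact Gt.mul _ _ _ A σ w h1 h2 h3 h4 h5 h6 h7

/-- Two symbols and a constant with the properties of the theorem. -/
structure Good (F : Sig) where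
  s : Bool → Fin F.n
  e : Fin F.n
  ne : s true ≠ s false
  pos : ∀ c, 0 < F.ar (s c)
  ar_e : F.ar e = 0
  mul : ∀ c, F.mul (s c) → F.ar (s c) = 1
  min : ∀ c h, F.prec (s c) h → h = e
  min_e : ∀ h, ¬ F.prec e h

namespace Good

variable (G : Good F)

theorem s_inj {c d : Bool} (h : G.s c = G.s d) : c = d := by
  have := G.ne
  cases c <;> cases d <;> simp_all

theorem s_ne_e (c : Bool) : G.s c ≠ G.e := by
  intro h
  have := G.pos c
  rw [h, G.ar_e] at this
  exact absurd this (lt_irrefl _)

/-- the constant -/
def E : Tree F := .app G.e fun i => (Fin.cast G.ar_e i).elim0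

theorem eq_E (ts : Fin (F.ar G.e) → Tree F) : Tree.app G.e ts = G.E := by
  unfold E
  congr 1
  funext i
  exact (Fin.cast G.ar_e i).elim0

/-- the tuple `(e, …, e, t)` -/
def args (c : Bool) (t : Tree F) : Fin (F.ar (G.s c)) → Tree F :=
  fun i => if (i : ℕ) + 1 = F.ar (G.s c) then t else G.E

/-- words as terms -/
def wd : List Bool → Tree F
  | [] => G.E
  | c :: u => .app (G.s c) (G.args c (wd u))

/-- the last index -/
def last (c : Bool) : Fin (F.ar (G.s c)) := ⟨F.ar (G.s c) - 1, by have := G.pos c; omega⟩

theorem args_last (c : Bool) (t : Tree F) : G.args c t (G.last c) = t := by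
  unfold args last
  have := G.pos c
  rw [if_pos]
  show F.ar (G.s c) - 1 + 1 = _
  omega

theorem eq_last {c : Bool} {i : Fin (F.ar (G.s c))} (h : (i : ℕ) + 1 = F.ar (G.s c)) :
    i = G.last c := by
  apply Fin.ext
  show (i : ℕ) = F.ar (G.s c) - 1
  omega

theorem args_ne {c : Bool} (t : Tree F) {i : Fin (F.ar (G.s c))} (h : i ≠ G.last c) :
    G.args c t i = G.E := by
  unfold args
  rw [if_neg]
  intro h1
  exact h (G.eq_last h1)

theorem args_cases (c : Bool) (t : Tree F) (i : Fin (F.ar (G.s c))) :
    (i = G.last c ∧ G.args c t i = t) ∨ (i ≠ G.last c ∧ G.args c t i = G.E) := by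
  by_cases h : i = G.last c
  · subst h
    exact Or.inl ⟨rfl, G.args_last c t⟩
  · exact Or.inr ⟨h, G.args_ne t h⟩

theorem args_word (c : Bool) (u : List Bool) (i : Fin (F.ar (G.s c))) :
    ∃ v, G.args c (G.wd u) i = G.wd v := by
  rcases G.args_cases c (G.wd u) i with ⟨_, h⟩ | ⟨_, h⟩
  · exact ⟨u, h⟩
  · exact ⟨[], h⟩

theorem wd_inj {u v : List Bool} (h : G.wd u = G.wd v) : u = v := by
  induction u generalizing v with
  | nil =>
    cases v with
    | nil => rfl
    | cons d v =>
      exfalso
      unfold wd E at h
      injection h with h1 h2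
      exact G.s_ne_e d h1.symm
  | cons c u ih =>
    cases v with
    | nil =>
      exfalso
      unfold wd E at h
      injection h with h1 h2
      exact G.s_ne_e c h1
    | cons d v =>
      unfold wd at h
      injection h with h1 h2
      have h3 := G.s_inj h1
      subst h3
      have h4 := eq_of_heq h2
      have h5 := congrFun h4 (G.last c)
      rw [args_last, args_last] at h5
      rw [ih h5]

theorem eqv_wd {s t : Tree F} (h : Eqv s t) :
    ∀ u, (s = G.wd u → t = G.wd u) ∧ (t = G.wd u → s = G.wd u) := by
  induction h with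
  | refl s => exact fun u => ⟨id, id⟩
  | symm _ ih => exact fun u => ⟨(ih u).2, (ih u).1⟩
  | trans _ _ ih1 ih2 => exact fun u => ⟨fun h => (ih2 u).1 ((ih1 u).1 h), fun h => (ih1 u).2 ((ih2 u).2 h)⟩
  | congr f ss ts h ih =>
    have key : ∀ ss ts : Fin (F.ar f) → Tree F, (∀ i u, ss i = G.wd u → ts i = G.wd u) →
        ∀ u, Tree.app f ss = G.wd u → Tree.app f ts = G.wd u := by
      intro ss ts hst u hu
      rw [← hu]
      congr 1
      funext i
      have h1 : ∃ v, ss i = G.wd v := by
        cases u with
        | nil =>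
          unfold wd E at hu
          injection hu with h1 h2
          subst h1
          exact (Fin.cast G.ar_e i).elim0
        | cons c u =>
          unfold wd at hu
          injection hu with h1 h2
          subst h1
          rw [eq_of_heq h2]
          exact G.args_word c u i
      obtain ⟨v, hv⟩ := h1
      rw [hst i v hv, hv]
    intro u
    exact ⟨key ss ts (fun i u => (ih i u).1) u, key ts ss (fun i u => (ih i u).2) u⟩
  | perm f ss σ hf =>
    have key : ∀ u, (Tree.app f ss = G.wd u ∨ Tree.app f (ss ∘ σ) = G.wd u) →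
        ss ∘ σ = ss := by
      intro u hu
      have h1 : F.ar f ≤ 1 := by
        cases u with
        | nil =>
          unfold wd E at hu
          rcases hu with hu | hu <;>
          · injection hu with h1 h2
            rw [h1, G.ar_e]
            exact Nat.zero_le 1
        | cons c u =>
          unfold wd at hu
          rcases hu with hu | hu <;>
          · injection hu with h1 h2
            rw [h1]
            rw [h1] at hf
            exact (G.mul c hf).le
      funext i
      show ss (σ i) = ss i
      congr 1
      apply Fin.ext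
      have h2 := i.2
      have h3 := (σ i).2
      omega
    intro u
    constructor
    · intro hu
      rw [key u (Or.inl hu)]
      exact hu
    · intro hu
      rw [key u (Or.inr hu)] at hu
      exact hu

theorem eqv_wd_iff {t : Tree F} (u : List Bool) : Eqv (G.wd u) t ↔ t = G.wd u := by
  constructor
  · intro h
    exact (G.eqv_wd h u).1 rfl
  · intro h
    rw [h]
    exact Eqv.refl _

theorem not_gt_E (t : Tree F) : ¬ Gt G.E t := by
  intro h
  unfold E at h
  rw [gt_iff] at h
  rcases h with (⟨i, h⟩ | ⟨g, ts, rfl, h1, h2⟩ | ⟨ts, rfl, h2, ⟨h1, i, h3, h4⟩ |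
      ⟨h1, A, σ, w, ⟨i, h3⟩, h4, h5, h6, h7⟩⟩)
  · exact (Fin.cast G.ar_e i).elim0
  · exact G.min_e g h1
  · exact (Fin.cast G.ar_e i).elim0
  · exact (Fin.cast G.ar_e i).elim0

/-- when `wd (c :: u) > t` -/
theorem gt_cons (c : Bool) (u : List Bool) (t : Tree F) :
    Gt (G.wd (c :: u)) t ↔ t = G.E ∨ Gt (G.wd u) t ∨ t = G.wd u ∨
      ∃ t', t = .app (G.s c) (G.args c t') ∧ Gt (G.wd (c :: u)) t' ∧ Gt (G.wd u) t' := by
  constructor
  · intro h
    unfold wd at h
    rw [gt_iff] at h
    rcases h with (⟨i, h⟩ | ⟨g, ts, rfl, h1, h2⟩ | ⟨ts, rfl, h2, ⟨h1, i, h3, h4⟩ |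
      ⟨h1, A, σ, w, ⟨i, h3⟩, h4, h5, h6, h7⟩⟩)
    · rcases G.args_cases c (G.wd u) i with ⟨_, h1⟩ | ⟨_, h1⟩
      · rw [h1] at h
        rcases h with h | h
        · exact Or.inr (Or.inl h)
        · exact Or.inr (Or.inr (Or.inl ((G.eqv_wd_iff u).1 h)))
      · rw [h1] at h
        rcases h with h | h
        · exact absurd h (G.not_gt_E t)
        · exact Or.inl ((G.eqv_wd_iff []).1 h)
    · left
      have := G.min c g h1
      subst this
      exact G.eq_E ts
    · right; right; right
      rcases G.args_cases c (G.wd u) i with ⟨hi, h5⟩ | ⟨_, h5⟩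
      · rw [h5] at h4
        refine ⟨ts i, ?_, h2 i, h4⟩
        congr 1
        funext j
        rcases G.args_cases c (ts i) j with ⟨hj, h6⟩ | ⟨hj, h6⟩
        · rw [h6, hi, hj]
        · rw [h6]
          have h7 : j < i := by
            rw [hi]
            have h8 : (j : ℕ) ≠ F.ar (G.s c) - 1 := fun h9 => hj (Fin.ext h9)
            have h10 := j.2
            show (j : ℕ) < F.ar (G.s c) - 1
            omega
          have h8 := h3 j h7
          rw [G.args_ne _ hj] at h8
          exact (G.eqv_wd_iff []).1 h8
      · rw [h5] at h4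
        exact absurd h4 (G.not_gt_E _)
    · right; right; right
      have har := G.mul c h1
      have hall : ∀ j : Fin (F.ar (G.s c)), j = G.last c := by
        intro j
        apply G.eq_last
        have := j.2
        omega
      have h8 : G.last c ∉ σ '' A := by
        rintro ⟨a, ha, _⟩
        apply h3
        rw [hall i, ← hall a]
        exact ha
      have h9 := h7 _ h8
      rw [hall (w _), args_last] at h9
      refine ⟨ts (G.last c), ?_, h2 _, h9⟩
      congr 1
      funext j
      rw [hall j, args_last]
  · rintro (h | h | h | ⟨t', rfl, h1, h2⟩)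
    · subst h
      induction u with
      | nil =>
        unfold wd
        apply Gt.sub_eqv _ _ _ (G.last c)
        rw [args_last]
        exact Eqv.refl _
      | cons d u ih =>
        -- `wd (d :: u) > E`
        have h1 : Gt (G.wd (d :: u)) G.E := by
          clear ih
          induction u generalizing d with
          | nil =>
            unfold wd
            apply Gt.sub_eqv _ _ _ (G.last d)
            rw [args_last]
            exact Eqv.refl _
          | cons b u ih =>
            rw [wd]
            apply Gt.sub_gt _ _ _ (G.last d)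
            rw [args_last]
            exact ih b
        rw [wd]
        apply Gt.sub_gt _ _ _ (G.last c)
        rw [args_last]
        exact h1
    · rw [wd]
      apply Gt.sub_gt _ _ _ (G.last c)
      rw [args_last]
      exact h
    · rw [wd]
      apply Gt.sub_eqv _ _ _ (G.last c)
      rw [args_last, h]
      exact Eqv.refl _
    · have h3 : Gt (G.wd (c :: u)) G.E := by
        clear h1 h2
        induction u generalizing c with
        | nil =>
          unfold wd
          apply Gt.sub_eqv _ _ _ (G.last c)
          rw [args_last]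
          exact Eqv.refl _
        | cons b u ih =>
          rw [wd]
          apply Gt.sub_gt _ _ _ (G.last c)
          rw [args_last]
          exact ih b
      have hj : ∀ j, Gt (.app (G.s c) (G.args c (G.wd u))) (G.args c t' j) := by
        intro j
        rcases G.args_cases c t' j with ⟨_, h5⟩ | ⟨_, h5⟩
        · rw [h5]
          exact h1
        · rw [h5]
          exact h3
      rw [wd]
      by_cases hm : F.mul (G.s c)
      · have har := G.mul c hm
        have hall : ∀ j : Fin (F.ar (G.s c)), j = G.last c := by
          intro j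
          apply G.eq_last
          have := j.2
          omega
        refine Gt.mul _ _ _ ∅ id id hm hj ⟨G.last c, fun h => h⟩ (Set.injOn_empty _)
          (fun i hi => absurd hi (fun h => h)) (fun j _ h => h) ?_
        intro j _
        rw [hall j]
        show Gt (G.args c (G.wd u) (G.last c)) _
        rw [args_last, args_last]
        exact h2
      · refine Gt.lex _ _ _ (G.last c) hm hj ?_ ?_
        · intro j hlt
          have : j ≠ G.last c := fun h => by rw [h] at hlt; exact lt_irrefl _ hlt
          rw [G.args_ne _ this, G.args_ne _ this]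
          exact Eqv.refl _
        · rw [args_last, args_last]
          exact h2

theorem gt_E {u : List Bool} (h : u ≠ []) : Gt (G.wd u) G.E := by
  cases u with
  | nil => exact absurd rfl h
  | cons c u => exact (G.gt_cons c u _).2 (Or.inl rfl)

/-- everything below a word is a word -/
theorem down (u : List Bool) (t : Tree F) (h : Gt (G.wd u) t) : ∃ v, t = G.wd v := by
  induction u generalizing t with
  | nil => exact absurd h (G.not_gt_E t)
  | cons c u ih =>
    rcases (G.gt_cons c u t).1 h with h1 | h1 | h1 | ⟨t', rfl, h1, h2⟩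
    · exact ⟨[], h1⟩
    · exact ih t h1
    · exact ⟨u, h1⟩
    · obtain ⟨v, hv⟩ := ih t' h2
      refine ⟨c :: v, ?_⟩
      rw [wd, hv]

theorem gt_wd (u v : List Bool) : Gt (G.wd u) (G.wd v) ↔ v.Sublist u ∧ v ≠ u := by
  induction u generalizing v with
  | nil =>
    constructor
    · intro h
      exact absurd h (G.not_gt_E _)
    · rintro ⟨h1, h2⟩
      exact absurd (List.sublist_nil.1 h1) h2
  | cons c u ih =>
    induction v with
    | nil => exact ⟨fun _ => ⟨List.nil_sublist _, by simp⟩, fun _ => G.gt_E (by simp)⟩
    | cons d v ihv =>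
      rw [gt_cons]
      constructor
      · rintro (h | h | h | ⟨t', h, h1, h2⟩)
        · exact absurd (G.wd_inj (v := []) h) (by simp)
        · rw [ih] at h
          refine ⟨h.1.cons _, fun h3 => ?_⟩
          have := h.1.length_le
          rw [h3] at this
          simp at this
        · have h3 := G.wd_inj h
          refine ⟨?_, fun h4 => ?_⟩
          · rw [h3]
            exact (List.Sublist.refl u).cons _
          · rw [h3] at h4
            have := congrArg List.length h4
            simp at this
        · rw [wd] at h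
          injection h with h3 h4
          have h5 := G.s_inj h3
          subst h5
          have h6 := congrFun (eq_of_heq h4) (G.last d)
          rw [args_last, args_last] at h6
          subst h6
          rw [ih] at h2
          refine ⟨h2.1.cons_cons _, fun h7 => h2.2 ?_⟩
          injection h7
      · rintro ⟨h1, h2⟩
        right
        cases h1 with
        | cons _ h1 =>
          by_cases h3 : d :: v = u
          · right; left
            rw [h3]
          · left
            rw [ih]
            exact ⟨h1, h3⟩
        | cons_cons _ h1 =>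
          right; right
          refine ⟨G.wd v, by rw [wd], ?_, ?_⟩
          · rw [ihv]
            refine ⟨h1.cons _, fun h3 => ?_⟩
            have := h1.length_le
            rw [h3] at this
            simp at this
          · rw [ih]
            refine ⟨h1, fun h3 => h2 (by rw [h3])⟩

end Good

end Pool.Agent.J4.H57.RP
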